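import Pool.Agent.Lib.TVH.Hier

set_option autoImplicit false
set_option linter.unusedVariables false

namespace Pool.Agent.Lib.TVH

open Pool.Agent.Lib.MP_3ecc11_lc

section
variable {N : ℤ} {a b z : ℤ → ℤ} {d : ℤ → ℤ → ℕ}

theorem mem_ball {u v : ℤ} {k : ℕ} : v ∈ ball N d u k ↔ (0 < v ∧ v < N) ∧ d u v ≤ k := by
  unfold ball
  rw [Finset.mem_filter, Finset.mem_Ioo]

theorem Hier.self (H : Hier N a b d z) {u : ℤ} (u1 : 0 < u) (u2 : u < N) : d u u = 0 :=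
  (H.d0 u u u1 u2 u1 u2).2 rfl

theorem Hier.self_mem (H : Hier N a b d z) {u : ℤ} (u1 : 0 < u) (u2 : u < N) (k : ℕ) :
    u ∈ ball N d u k :=
  mem_ball.2 ⟨⟨u1, u2⟩, by rw [H.self u1 u2]; omega⟩

theorem Hier.d5' (H : Hier N a b d z) {u v : ℤ} (u1 : 0 < u) (u2 : u < N) (v1 : 0 < v)
    (v2 : v < N) : 2 ^ (d u v / 5) ≤ 4 * (ball N d u (d u v)).card := by
  have p : 1 ≤ (ball N d u (d u v)).card := Finset.card_pos.2 ⟨u, H.self_mem u1 u2 _⟩
  rcases Nat.eq_zero_or_pos (d u v) with e | e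
  · have : d u v / 5 = 0 := by omega
    rw [this]
    omega
  · have h1 := H.d5 u v u1 u2 v1 v2 e
    have h2 : (2 ^ (d u v / 5)) ^ 5 ≤ 2 ^ d u v := by
      rw [← pow_mul]
      exact Nat.pow_le_pow_right (by norm_num) (by omega)
    have h3 : (2 ^ (d u v / 5)) ^ 5 ≤ (4 * (ball N d u (d u v)).card) ^ 5 := by
      rw [mul_pow]
      omega
    exact (Nat.pow_le_pow_iff_left (by norm_num)).1 h3

/-- the shape of the balls: a point, a subtree, or a subtree without a subtree hanging on the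
same heavy path -/
theorem Hier.shape (h : Lam 0 N a b) (H : Hier N a b d z) {u : ℤ} (u1 : 0 < u) (u2 : u < N)
    (k : ℕ) (hG : Good N a b z (ball N d u k)) (hz : ∀ v, 0 < v → v < N → ZP a b z v) :
    ball N d u k = {u} ∨ (∃ m, 0 < m ∧ m < N ∧ ∀ v, v ∈ ball N d u k ↔ a m < v ∧ v < b m) ∨
      ∃ m y, 0 < m ∧ m < N ∧ a m < y ∧ y < b m ∧
        (∀ v, v ∈ ball N d u k ↔ (a m < v ∧ v < b m) ∧ ¬ (a y < v ∧ v < b y)) ∧
        ∀ v, a m < v → v < b m → a v < y → y < b v → z v = z y := by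
  have hu := H.self_mem u1 u2 k
  rcases hG with ⟨y, e⟩ | ⟨z0, l1, l2, l3, l4, hO, hI, o1, o2, o3, e⟩
  · rw [e] at hu ⊢
    rw [Finset.mem_singleton] at hu
    exact Or.inl (by rw [hu])
  rw [e] at hu ⊢
  rw [mem_seg] at hu
  obtain ⟨m, m1, m2, m3, m4, m5⟩ : ∃ m, 0 < m ∧ m < N ∧ a m = l1 ∧ b m = l4 ∧ z m = z0 := by
    rcases hO with hO | hO
    · exact hO
    · omega
  rcases hI with ⟨y, y1, y2, y3, y4, y5⟩ | hI
  · have py := h.pl y y1 y2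
    refine Or.inr (Or.inr ⟨m, y, m1, m2, by omega, by omega, fun v => by rw [mem_seg]; omega,
      fun v v1 v2 v3 v4 => ?_⟩)
    have sv := sub h m1 m2 v1 v2
    have sy := sub h sv.1 sv.2.1 v3 v4
    obtain ⟨j1, j2, -⟩ := hz y y1 y2
    rw [y5, ← m5]
    exact (hz m m1 m2).2.2.1 v v1 v2 (by omega) (by omega)
  · exact Or.inr (Or.inl ⟨m, m1, m2, fun v => by rw [mem_seg]; omega⟩)

/-- the hierarchy with the shape of the balls -/
theorem hier2 (h : Lam 0 N a b) : ∃ (d : ℤ → ℤ → ℕ) (z : ℤ → ℤ), Hier N a b d z ∧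
    ∀ u k, 0 < u → u < N → (ball N d u k = {u} ∨
      (∃ m, 0 < m ∧ m < N ∧ ∀ v, v ∈ ball N d u k ↔ a m < v ∧ v < b m) ∨
      ∃ m y, 0 < m ∧ m < N ∧ a m < y ∧ y < b m ∧
        (∀ v, v ∈ ball N d u k ↔ (a m < v ∧ v < b m) ∧ ¬ (a y < v ∧ v < b y)) ∧
        ∀ v, a m < v → v < b m → a v < y → y < b v → z v = z y) := by
  obtain ⟨d, z, g, g1, g2⟩ := hierG h
  exact ⟨d, z, g, fun u k u1 u2 => g.shape h u1 u2 k (g1 u k u1 u2) g2⟩

end

end Pool.Agent.Lib.TVH
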