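import Pool.Agent.Lib.MP_3ecc11_lc.Trav
import Pool.Agent.Lib.TV19.Defs

set_option autoImplicit false
set_option linter.unusedVariables false

namespace Pool.Agent.Lib.TVH

open Pool.Agent.Lib.MP_3ecc11_lc BT

theorem side_congr {R x : ℤ} {p q p' q' p2 q2 : ℤ → ℤ} {W : Finset ℤ} {L : ℤ} (hL : L < x)
    (lam : Lam L R p q) (h : Side R x p q p' q' W)
    (e : ∀ v, x < v → v < R → p2 v = p' v ∧ q2 v = q' v) : Side R x p q p2 q2 W := by
  refine ⟨fun y hy => ?_, fun v v1 v2 c d => ?_⟩
  · obtain ⟨a1, a2, a3, a4, a5, a6, a7, a8, a9⟩ := h.win y hy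
    have py := lam.pl y (by omega) a2
    have e1 := e y a1 a2
    have e2 := e (q y) (by omega) a4
    exact ⟨a1, a2, a3, a4, a5, by omega, by omega, by omega, by omega⟩
  · have := h.oth v v1 v2 c d
    have := e v v1 v2
    omega

/-- old nodes on the right of `t` that are touched but neither win nor lose -/
noncomputable def skipR (a b : ℤ → ℤ) (P Q : ℤ → ℤ → ℤ) (t u : ℤ) : Finset ℤ :=
  (Finset.Ioo t (b t)).filter (fun c => P t c = a t ∧ P u c = t ∧ Q u c = Q t c)

/-- old nodes on the left of `t` that are touched but neither win nor lose -/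
noncomputable def skipL (a b : ℤ → ℤ) (P Q : ℤ → ℤ → ℤ) (t u : ℤ) : Finset ℤ :=
  (Finset.Ioo (a t) t).filter (fun c => Q t c = b t ∧ Q u c = t ∧ P u c = P t c)

/-- the number of touched nodes at time `t` -/
noncomputable def affc (a b : ℤ → ℤ) (P Q : ℤ → ℤ → ℤ) (t : ℤ) : ℕ :=
  ((Finset.Ioo (a t) t).filter (fun v => t ≤ Q t v)).card
    + ((Finset.Ioo t (b t)).filter (fun v => P t v ≤ t)).card

/-- the local conditions at time `t` -/
structure Loc (a b : ℤ → ℤ) (P Q : ℤ → ℤ → ℤ) (dd : ℤ → ℕ) (t : ℤ) : Prop where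
  lam : Lam (a t) (b t) (P t) (Q t)
  tR : ∀ u, t < u → u < b t → a u = t → b u = b t →
    (∃ W, Side (b t) t (P t) (Q t) (P u) (Q u) W) ∧ (skipR a b P Q t u).card ≤ dd t + 4
  tL : ∀ u, a t < u → u < t → b u = t → a u = a t →
    (∃ W, SideL (a t) t (P t) (Q t) (P u) (Q u) W) ∧ (skipL a b P Q t u).card ≤ dd t + 4

theorem Loc.congr {a b a' b' : ℤ → ℤ} {P Q P' Q' : ℤ → ℤ → ℤ} {dd dd' : ℤ → ℕ} {t lo hi : ℤ}
    (h : Loc a b P Q dd t) (t1 : lo ≤ a t) (t2 : a t < t) (t3 : t < b t) (t4 : b t ≤ hi)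
    (e : ∀ v, lo < v → v < hi → a' v = a v ∧ b' v = b v ∧ P' v = P v ∧ Q' v = Q v ∧ dd' v = dd v) :
    Loc a' b' P' Q' dd' t ∧ affc a' b' P' Q' t = affc a b P Q t := by
  obtain ⟨e1, e2, e3, e4, e5⟩ := e t (by omega) (by omega)
  refine ⟨⟨by rw [e1, e2, e3, e4]; exact h.lam, fun u u1 u2 u3 u4 => ?_, fun u u1 u2 u3 u4 => ?_⟩,
    by unfold affc; rw [e1, e2, e3, e4]⟩
  · obtain ⟨f1, f2, f3, f4, -⟩ := e u (by omega) (by omega)
    unfold skipR
    rw [e1, e2, e3, e4, e5, f3, f4]
    exact h.tR u u1 (by omega) (by omega) (by omega)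
  · obtain ⟨f1, f2, f3, f4, -⟩ := e u (by omega) (by omega)
    unfold skipL
    rw [e1, e2, e3, e4, e5, f3, f4]
    exact h.tL u (by omega) u2 (by omega) (by omega)

theorem sum_split (f : ℤ → ℕ) {lo x hi : ℤ} (h1 : lo < x) (h2 : x < hi) :
    ∑ t ∈ Finset.Ioo lo hi, f t = ∑ t ∈ Finset.Ioo lo x, f t + f x + ∑ t ∈ Finset.Ioo x hi, f t := by
  have e : Finset.Ioo lo hi = insert x (Finset.Ioo lo x ∪ Finset.Ioo x hi) := by
    ext v
    simp only [Finset.mem_insert, Finset.mem_union, Finset.mem_Ioo]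
    omega
  rw [e, Finset.sum_insert (by simp), Finset.sum_union (by
    rw [Finset.disjoint_left]
    intro v h3 h4
    rw [Finset.mem_Ioo] at h3 h4
    omega)]
  omega

theorem ex_rec (N : ℤ) : ∀ (T : BT ℤ) (lo hi : ℤ), Full lo hi T → 0 ≤ lo → hi ≤ N →
    ∀ (S S' : BT ℤ) (c : ℕ), Full 0 N S → Run (preord T) S S' c →
    (∀ v, hi < v → v < N → hi ≤ pb S 0 v) →
    Full 0 N S' ∧ (∀ v, hi < v → v < N → pb S' 0 v = pb S 0 v ∧ qb S' N v = qb S N v) ∧
    ∃ (P Q : ℤ → ℤ → ℤ) (dd : ℤ → ℕ),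
      (∀ r, lo < r → r < hi → pb T lo r = lo → qb T hi r = hi →
        P r = pJ lo (pb S 0) ∧ Q r = qJ hi (qb S N)) ∧
      (∀ t, lo < t → t < hi → Loc (pb T lo) (qb T hi) P Q dd t) ∧
      c ≤ ∑ t ∈ Finset.Ioo lo hi, (affc (pb T lo) (qb T hi) P Q t + dd t + 2) ∧
      ∑ t ∈ Finset.Ioo lo hi, dd t + 2 * Psi (qb S' N) (hi - 1)
        ≤ 2 * Psi (qb S N) lo + Th (pb S 0) lo lo hi + ∑ t ∈ Finset.Ioo lo hi, 7
  | nil, lo, hi, hT, a0, bN, S, S', c, hS, hR, inv => by
    unfold Full at hT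
    unfold preord at hR
    cases hR
    refine ⟨hS, fun _ _ _ => ⟨rfl, rfl⟩, fun _ _ => 0, fun _ _ => 0, fun _ => 0,
      fun r r1 r2 => by omega, fun r r1 r2 => by omega, Nat.zero_le _, ?_⟩
    rw [show hi - 1 = lo by omega, Finset.sum_const_zero]
    omega
  | node l x r, lo, hi, hT, a0, bN, S, S', c, hS, hR, inv => by
    have ax := hT.1.lt
    have xb := hT.2.lt
    have lamT := hT.lam
    have lamL := hT.1.lam
    have lamR := hT.2.lam
    unfold preord at hR
    cases hR with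
    | cons _ _ _ S1 _ c h1 h2 =>
      obtain ⟨S2, c1, c2, g1, g2, rfl⟩ := Run.split _ _ _ _ _ h2
      obtain ⟨f1, x1, x2, WR, WL, UR, m, f, sp⟩ := h1.sp hS
      have H : Rd N lo x hi _ _ _ _ WR WL UR m f := ⟨a0, ax, xb, bN, hS.lam, inv, sp⟩
      obtain ⟨af1, af2⟩ := H.after
      have dl := hS.depth_le x x1 x2
      obtain ⟨f2, u1, P1, Q1, d1, r1, l1, k1, j1⟩ :=
        ex_rec N l lo x hT.1 a0 (by omega) S1 S2 c1 f1 g1 af1
      obtain ⟨f3, u2, P2, Q2, d2, r2, l2, k2, j2⟩ := ex_rec N r x hi hT.2 (by omega) bN S2 S' c2 f2 g2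
        (fun v v1 v2 => by
          rw [(u1 v (by omega) v2).1, (af2 v v1 v2).1]
          exact inv v v1 v2)
      let P : ℤ → ℤ → ℤ := fun t => if t < x then P1 t else if x < t then P2 t else pJ lo (pb S 0)
      let Q : ℤ → ℤ → ℤ := fun t => if t < x then Q1 t else if x < t then Q2 t else qJ hi (qb S N)
      let dd : ℤ → ℕ := fun t =>
        if t < x then d1 t else if x < t then d2 t else (dead lo x (qb S N)).card
      have eL : ∀ v, lo < v → v < x → pb (node l x r) lo v = pb l lo v ∧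
          qb (node l x r) hi v = qb l x v ∧ P v = P1 v ∧ Q v = Q1 v ∧ dd v = d1 v :=
        fun v _ v2 => ⟨pb_lt v2, qb_lt v2, if_pos v2, if_pos v2, if_pos v2⟩
      have eR : ∀ v, x < v → v < hi → pb (node l x r) lo v = pb r x v ∧
          qb (node l x r) hi v = qb r hi v ∧ P v = P2 v ∧ Q v = Q2 v ∧ dd v = d2 v :=
        fun v v1 _ => ⟨pb_gt v1, qb_gt v1, by simp only [P, if_neg (not_lt.2 v1.le), if_pos v1],
          by simp only [Q, if_neg (not_lt.2 v1.le), if_pos v1],
          by simp only [dd, if_neg (not_lt.2 v1.le), if_pos v1]⟩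
      have eP : P x = pJ lo (pb S 0) := by simp only [P, lt_irrefl, if_false]
      have eQ : Q x = qJ hi (qb S N) := by simp only [Q, lt_irrefl, if_false]
      have eD : dd x = (dead lo x (qb S N)).card := by simp only [dd, lt_irrefl, if_false]
      have cL : ∀ t, lo < t → t < x → Loc (pb (node l x r) lo) (qb (node l x r) hi) P Q dd t ∧
          affc (pb (node l x r) lo) (qb (node l x r) hi) P Q t = affc (pb l lo) (qb l x) P1 Q1 t := by
        intro t t1 t2
        have p := lamL.pl t t1 t2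
        exact (l1 t t1 t2).congr p.1 p.2.1 p.2.2.1 p.2.2.2 eL
      have cR : ∀ t, x < t → t < hi → Loc (pb (node l x r) lo) (qb (node l x r) hi) P Q dd t ∧
          affc (pb (node l x r) lo) (qb (node l x r) hi) P Q t = affc (pb r x) (qb r hi) P2 Q2 t := by
        intro t t1 t2
        have p := lamR.pl t t1 t2
        exact (l2 t t1 t2).congr p.1 p.2.1 p.2.2.1 p.2.2.2 eR
      have lamX := hS.lam.restr a0 bN
      refine ⟨f3, fun v v1 v2 => ?_, P, Q, dd, fun t t1 t2 t3 t4 => ?_, fun t t1 t2 => ?_, ?_, ?_⟩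
      · have e1 := u2 v v1 v2
        have e2 := u1 v (by omega) v2
        have e3 := af2 v v1 v2
        omega
      · rcases lt_trichotomy t x with g | g | g
        · have := lamL.pl t t1 g
          rw [qb_lt g] at t4
          omega
        · rw [g]; exact ⟨eP, eQ⟩
        · have := lamR.pl t g t2
          rw [pb_gt g] at t3
          omega
      · rcases lt_trichotomy t x with g | g | g
        · exact (cL t t1 g).1
        · subst g
          refine ⟨by rw [pb_eq, qb_eq, eP, eQ]; exact lamX, fun u v1 v2 v3 v4 => ?_,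
            fun u v1 v2 v3 v4 => ?_⟩
          · rw [qb_eq] at v2 v4
            obtain ⟨e1, e2, e3, e4, -⟩ := eR u v1 v2
            obtain ⟨e5, e6⟩ := r2 u v1 v2 (by omega) (by omega)
            have sd : Side hi t (pJ lo (pb S 0)) (qJ hi (qb S N)) (P u) (Q u) _ :=
              side_congr ax lamX H.side (fun v w1 w2 => by
                have := u1 v w1 (by omega)
                rw [e3, e4, e5, e6]
                unfold pJ qJ
                rw [this.1, this.2]
                exact ⟨rfl, rfl⟩)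
            refine ⟨by rw [qb_eq, eP, eQ]; exact ⟨_, sd⟩, ?_⟩
            rw [eD]
            refine le_trans (H.skipR _ (fun v hv => ?_)) (by omega)
            unfold skipR at hv
            rw [Finset.mem_filter, Finset.mem_Ioo, pb_eq, qb_eq, eP, eQ] at hv
            refine ⟨hv.1.1, hv.1.2, hv.2.1, fun g => ?_, fun y hy g => ?_⟩
            · obtain ⟨b1, b2, b3, b4, b5, b6, b7, b8, b9⟩ := sd.win v g
              have p1 := lamX.pl v (by omega) b2
              have p2 := lamX.pl (qJ hi (qb S N) v) (by omega) b4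
              omega
            · obtain ⟨b1, b2, b3, b4, b5, b6, b7, b8, b9⟩ := sd.win y hy
              rw [g] at b8
              omega
          · rw [pb_eq] at v1 v4
            obtain ⟨e1, e2, e3, e4, -⟩ := eL u v1 v2
            obtain ⟨e5, e6⟩ := r1 u v1 v2 (by omega) (by omega)
            have sd : SideL lo t (pJ lo (pb S 0)) (qJ hi (qb S N)) (P u) (Q u)
                (WL.filter (fun y => lo < pb S 0 y)) := by
              rw [e3, e4, e5, e6]
              exact H.sideL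
            refine ⟨by rw [pb_eq, eP, eQ]; exact ⟨_, sd⟩, ?_⟩
            refine le_trans (H.skipL _ (fun v hv => ?_)) (by omega)
            unfold skipL at hv
            rw [Finset.mem_filter, Finset.mem_Ioo, pb_eq, qb_eq, eP, eQ] at hv
            refine ⟨hv.1.1, hv.1.2, hv.2.1, fun g => ?_, fun y hy g => ?_⟩
            · obtain ⟨b1, b2, b3, b4, b5, b6, b7, b8, b9⟩ := sd.win v g
              have p1 := lamX.pl v b2 (by omega)
              have p2 := lamX.pl (pJ lo (pb S 0) v) b4 (by omega)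
              omega
            · obtain ⟨b1, b2, b3, b4, b5, b6, b7, b8, b9⟩ := sd.win y hy
              rw [g] at b8
              omega
        · exact (cR t g t2).1
      · have s1 : ∑ t ∈ Finset.Ioo lo x,
            (affc (pb (node l x r) lo) (qb (node l x r) hi) P Q t + dd t + 2)
            = ∑ t ∈ Finset.Ioo lo x, (affc (pb l lo) (qb l x) P1 Q1 t + d1 t + 2) :=
          Finset.sum_congr rfl (fun t ht => by
            rw [Finset.mem_Ioo] at ht
            rw [(cL t ht.1 ht.2).2, (eL t ht.1 ht.2).2.2.2.2])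
        have s2 : ∑ t ∈ Finset.Ioo x hi,
            (affc (pb (node l x r) lo) (qb (node l x r) hi) P Q t + dd t + 2)
            = ∑ t ∈ Finset.Ioo x hi, (affc (pb r x) (qb r hi) P2 Q2 t + d2 t + 2) :=
          Finset.sum_congr rfl (fun t ht => by
            rw [Finset.mem_Ioo] at ht
            rw [(cR t ht.1 ht.2).2, (eR t ht.1 ht.2).2.2.2.2])
        rw [sum_split _ ax xb, s1, s2, eD]
        have h1 := H.anc
        have e : affc (pb (node l x r) lo) (qb (node l x r) hi) P Q x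
            = ((Finset.Ioo lo x).filter (fun v => x ≤ qJ hi (qb S N) v)).card
              + ((Finset.Ioo x hi).filter (fun v => pJ lo (pb S 0) v ≤ x)).card := by
          unfold affc
          rw [pb_eq, qb_eq, eP, eQ]
        omega
      · have s1 : ∑ t ∈ Finset.Ioo lo x, dd t = ∑ t ∈ Finset.Ioo lo x, d1 t :=
          Finset.sum_congr rfl (fun t ht => by
            rw [Finset.mem_Ioo] at ht
            rw [(eL t ht.1 ht.2).2.2.2.2])
        have s2 : ∑ t ∈ Finset.Ioo x hi, dd t = ∑ t ∈ Finset.Ioo x hi, d2 t :=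
          Finset.sum_congr rfl (fun t ht => by
            rw [Finset.mem_Ioo] at ht
            rw [(eR t ht.1 ht.2).2.2.2.2])
        rw [sum_split dd ax xb, sum_split (fun _ => 7) ax xb, s1, s2, eD]
        rw [Th_zero (pb S2 0) x x hi (fun w w1 w2 => by
          rw [(u1 w w1 (by omega)).1]
          exact af1 w w1 (by omega))] at j2
        have ps := Psi_succ (qb S2 N) x
        have h4 := H.deadle
        have h5 := H.psi
        have h6 := H.theta
        omega

section
variable {L R : ℤ} {a b : ℤ → ℤ}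

theorem top_ex (h : Lam L R a b) (u v : ℤ) : ∃ t, L < u → u ≤ v → v < R →
    u ≤ t ∧ t ≤ v ∧ a t < u ∧ v < b t := by
  by_cases g : L < u ∧ u ≤ v ∧ v < R
  swap
  · exact ⟨0, fun h1 h2 h3 => absurd ⟨h1, h2, h3⟩ g⟩
  obtain ⟨r, hr, hm⟩ := Finset.exists_max_image (Finset.Icc u v) (fun v => b v - a v)
    ⟨u, Finset.mem_Icc.2 ⟨le_rfl, g.2.1⟩⟩
  rw [Finset.mem_Icc] at hr
  have p := h.pl r (by omega) (by omega)
  refine ⟨r, fun _ _ _ => ⟨hr.1, hr.2, ?_, ?_⟩⟩
  · by_contra e
    have l := h.l4 r (by omega) (by omega) (by omega)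
    have p' := h.pl (a r) (by omega) (by omega)
    have := hm (a r) (Finset.mem_Icc.2 ⟨by omega, by omega⟩)
    omega
  · by_contra e
    have l := h.l3 r (by omega) (by omega) (by omega)
    have p' := h.pl (b r) (by omega) (by omega)
    have := hm (b r) (Finset.mem_Icc.2 ⟨by omega, by omega⟩)
    omega

theorem top_item (h : Lam L R a b) : ∃ top item : ℤ → ℤ → ℤ,
    (∀ u v, L < u → u ≤ v → v < R →
      u ≤ top u v ∧ top u v ≤ v ∧ a (top u v) < u ∧ v < b (top u v)) ∧
    (∀ u v, L < u → u < v → v < R → u ≤ item u v ∧ item u v < v ∧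
      (top u v = item u v ∨ top u v = item u v + 1)) ∧
    ∀ u v u' v', L < u → u ≤ u' → u' ≤ item u v → item u v < v' → v' ≤ v → v < R →
      item u' v' = item u v := by
  choose top ht using top_ex h
  refine ⟨top, fun u v => if top u v = u then u else top u v - 1, ht, fun u v h1 h2 h3 => ?_,
    fun u v u' v' h1 h2 h3 h4 h5 h6 => ?_⟩
  · have := ht u v h1 h2.le h3
    dsimp only
    split_ifs <;> omega
  · dsimp only at h3 h4 ⊢
    have k1 := ht u v h1 (by omega) h6
    have k2 := ht u' v' (by omega) (by omega) (by omega)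
    have e : top u' v' = top u v := by
      rcases lt_trichotomy (top u' v') (top u v) with c | c | c
      · have := h.l1 (top u v) (top u' v') (by omega) (by omega) (by omega) c
        split_ifs at h3 h4 <;> omega
      · exact c
      · have := h.l2 (top u v) (top u' v') (by omega) (by omega) c (by omega)
        split_ifs at h3 h4 <;> omega
    rw [e]
    split_ifs at h3 h4 ⊢ <;> omega

end

open Classical in
theorem affc_le (G : TV19.Sys) {t : ℤ} (ht : G.Key t) :
    affc G.a G.b G.P G.Q t ≤ ((Finset.Ioo G.L G.R).filter (G.Aff t)).card := by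
  have p := G.T.pl t ht.1 ht.2
  unfold affc
  rw [← Finset.card_union_of_disjoint (by
    rw [Finset.disjoint_left]
    intro v h1 h2
    rw [Finset.mem_filter, Finset.mem_Ioo] at h1 h2
    omega)]
  refine Finset.card_le_card (fun v hv => ?_)
  rw [Finset.mem_union, Finset.mem_filter, Finset.mem_filter, Finset.mem_Ioo, Finset.mem_Ioo] at hv
  rw [Finset.mem_filter, Finset.mem_Ioo]
  unfold TV19.Sys.Aff
  omega

open Classical in
/-- extraction of the split game from a traversal -/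
theorem ex (n : ℕ) (T S S' : BT ℤ) (c : ℕ) (hT : Full 0 (n + 1) T) (hS : Full 0 (n + 1) S)
    (hR : Run (preord T) S S' c) : ∃ (G : TV19.Sys) (sk : ℤ → ℕ), G.L = 0 ∧ G.R = n + 1 ∧
      c ≤ ∑ t ∈ Finset.Ioo G.L G.R, ((Finset.Ioo G.L G.R).filter (G.Aff t)).card + 9 * n ∧
      ∑ t ∈ Finset.Ioo G.L G.R, sk t ≤ 11 * n ∧
      ∀ t u, G.Key t → G.Key u → ∀ K : Finset ℤ,
        (G.a u = t → G.b u = G.b t → (∀ v ∈ K, t < v ∧ v < G.b t ∧ G.P t v = G.a t ∧
          G.P u v = t ∧ G.Q u v = G.Q t v) → K.card ≤ sk t) ∧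
        (G.b u = t → G.a u = G.a t → (∀ v ∈ K, v < t ∧ G.a t < v ∧ G.Q t v = G.b t ∧
          G.Q u v = t ∧ G.P u v = G.P t v) → K.card ≤ sk t) := by
  obtain ⟨-, -, P, Q, dd, -, l, k, j⟩ := ex_rec (n + 1) T 0 (n + 1) hT le_rfl le_rfl S S' c hS hR
    (fun v v1 v2 => by omega)
  have lam := hT.lam
  obtain ⟨top, item, t1, t2, t3⟩ := top_item lam
  have h2 : Psi (qb S (n + 1)) 0 = 0 := by simp [Psi]
  have h3 := Th_zero (pb S 0) 0 0 (n + 1) (fun w w1 w2 => (hS.lam.pl w w1 w2).1)
  have e : ((n : ℤ) + 1 - 0 - 1).toNat = n := by omega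
  rw [h2, h3, Finset.sum_const, Int.card_Ioo, e, smul_eq_mul] at j
  rw [Finset.sum_add_distrib, Finset.sum_add_distrib, Finset.sum_const, Int.card_Ioo, e,
    smul_eq_mul] at k
  let G : TV19.Sys := ⟨0, n + 1, pb T 0, qb T (n + 1), P, Q, top, item, lam,
    fun t a1 a2 => (l t a1 a2).lam,
    fun t u a1 a2 b1 b2 e1 e2 => by
      have := lam.pl u b1 b2
      exact ((l t a1 a2).tR u (by omega) (by omega) e1 e2).1,
    fun t u a1 a2 b1 b2 e1 e2 => by
      have := lam.pl u b1 b2
      exact ((l t a1 a2).tL u (by omega) (by omega) e1 e2).1, t1, t2, t3⟩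
  refine ⟨G, fun t => dd t + 4, rfl, rfl, ?_, ?_, fun t u a1 b1 K => ⟨fun e1 e2 hK => ?_,
    fun e1 e2 hK => ?_⟩⟩
  · have : ∑ t ∈ Finset.Ioo (0 : ℤ) (n + 1), affc (pb T 0) (qb T (n + 1)) P Q t
        ≤ ∑ t ∈ Finset.Ioo G.L G.R, ((Finset.Ioo G.L G.R).filter (G.Aff t)).card :=
      Finset.sum_le_sum (fun t ht => affc_le G (Finset.mem_Ioo.1 ht))
    omega
  · show ∑ t ∈ Finset.Ioo (0 : ℤ) (n + 1), (dd t + 4) ≤ 11 * n
    rw [Finset.sum_add_distrib, Finset.sum_const, Int.card_Ioo, e, smul_eq_mul]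
    omega
  · have := G.T.pl u b1.1 b1.2
    refine le_trans (Finset.card_le_card (fun v hv => ?_))
      ((l t a1.1 a1.2).tR u (by omega) (show u < G.b t by omega) e1 e2).2
    have := hK v hv
    exact Finset.mem_filter.2 ⟨Finset.mem_Ioo.2 ⟨this.1, this.2.1⟩, this.2.2⟩
  · have := G.T.pl u b1.1 b1.2
    refine le_trans (Finset.card_le_card (fun v hv => ?_))
      ((l t a1.1 a1.2).tL u (show G.a t < u by omega) (by omega) e1 e2).2
    have := hK v hv
    exact Finset.mem_filter.2 ⟨Finset.mem_Ioo.2 ⟨this.2.1, this.1⟩, this.2.2⟩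

end Pool.Agent.Lib.TVH
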