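import Pool.Agent.Lib.TV.Blue

set_option autoImplicit false
set_option linter.unusedVariables false

namespace Pool.Agent.Lib.TVH

open Pool.Agent.Lib.MP_3ecc11_lc Pool.Agent.Lib.TV19 Pool.Agent.Lib.TV

theorem hm_anc {a b : ℤ → ℤ} {t v : ℤ} : Anc (rf b) (rf a) t v ↔ Anc a b (-t) (-v) := by
  unfold Anc rf
  constructor <;> rintro ⟨h1, h2⟩ <;> constructor <;> omega

theorem hm_ball {L R : ℤ} {d : ℤ → ℤ → ℕ} {u v : ℤ} {k : ℕ} :
    v ∈ ball (-R) (-L) (fun u v => d (-u) (-v)) u k ↔ -v ∈ ball L R d (-u) k := by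
  rw [mem_ball, mem_ball]
  constructor <;> rintro ⟨h1, h2, h3⟩ <;> exact ⟨by omega, by omega, h3⟩

theorem hm_card {L R : ℤ} {d : ℤ → ℤ → ℕ} {u : ℤ} {k : ℕ} :
    (ball (-R) (-L) (fun u v => d (-u) (-v)) u k).card = (ball L R d (-u) k).card := by
  refine Finset.card_bij (fun v _ => -v) (fun v hv => hm_ball.1 hv) (fun v _ w _ h => by omega)
    (fun v hv => ⟨-v, hm_ball.2 (by rwa [neg_neg]), neg_neg v⟩)

theorem hm_key {L R : ℤ} {a b : ℤ → ℤ} (T : Lam L R a b) {t v : ℤ} (h1 : L < t) (h2 : t < R)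
    (h : Anc a b t v) : L < v ∧ v < R := by
  have := T.pl t h1 h2
  unfold Anc at h
  omega

theorem hm_sub {L R : ℤ} {a b : ℤ → ℤ} (T : Lam L R a b) {t v : ℤ} (h1 : L < t) (h2 : t < R)
    (h : Anc a b t v) (hn : v ≠ t) :
    a t ≤ a v ∧ b v ≤ b t ∧ (v < t → b v ≤ t) ∧ (t < v → t ≤ a v) := by
  have := T.pl t h1 h2
  unfold Anc at h
  rcases lt_or_gt_of_ne hn with k | k
  · have := T.l1 t v h1 h2 h.1 k
    omega
  · have := T.l2 t v h1 h2 k h.2
    omega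

theorem hm_ne {L R : ℤ} {a b : ℤ → ℤ} {d : ℤ → ℤ → ℕ} {z : ℤ → ℤ} (T : Lam L R a b)
    (H : Hier L R a b d z) {t w e : ℤ} (h1 : L < t) (h2 : t < R) (hw : Anc a b t w)
    (hwt : w ≠ t) (he : Anc a b w e) (hew : e ≠ w) (hd : d t w < d w e) : z w ≠ w := by
  intro hz
  obtain ⟨k1, k2⟩ := H.z2 t w e h1 h2 hw hwt he hew hd
  obtain ⟨w1, w2⟩ := hm_key T h1 h2 hw
  obtain ⟨e1, e2⟩ := hm_key T w1 w2 he
  have s := hm_sub T h1 h2 hw hwt
  have hte : Anc a b t e := by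
    unfold Anc at *
    omega
  have het : e ≠ t := by
    unfold Anc at *
    omega
  have hlt : e ≤ w := by omega
  have k3 := (H.z3 t e w h1 h2 hte hw hlt het hwt).1 (by omega)
  have k4 := H.d1 w t e w1 w2 h1 h2 e1 e2
  have k5 := H.sym w t w1 w2 h1 h2
  omega

theorem HM_holds : St_HM := by
  intro L R a b d z T H
  refine ⟨?_, ?_, ?_, ?_, ?_, ?_, ?_, ?_, ?_, ?_, ?_, ?_, ?_⟩
  · intro u v h1 h2 h3 h4
    rw [H.d0 (-u) (-v) (by omega) (by omega) (by omega) (by omega)]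
    omega
  · intro u v h1 h2 h3 h4
    exact H.sym (-u) (-v) (by omega) (by omega) (by omega) (by omega)
  · intro u v w h1 h2 h3 h4 h5 h6
    exact H.d1 (-u) (-v) (-w) (by omega) (by omega) (by omega) (by omega) (by omega) (by omega)
  · intro u v w h1 h2 h3 h4 h5 h6
    exact H.d2 (-u) (-v) (-w) (by omega) (by omega) (by omega) (by omega) (by omega) (by omega)
  · intro u v w h1 h2 h3 h4
    exact H.d3 (-u) (-v) (-w) (by omega) (by omega) (hm_anc.1 h3) (hm_anc.1 h4)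
  · intro u k h1 h2
    rw [hm_card]
    exact H.d4 (-u) k (by omega) (by omega)
  · intro u v h1 h2 h3 h4
    rw [hm_card]
    exact H.d5 (-u) (-v) (by omega) (by omega) (by omega) (by omega)
  · intro u k h1 h2
    obtain ⟨m, hm, hm2⟩ := H.d6 (-u) k (by omega) (by omega)
    refine ⟨-m, hm_ball.2 (by rwa [neg_neg]), fun v hv => hm_anc.2 ?_⟩
    rw [neg_neg]
    exact hm2 _ (hm_ball.1 hv)
  · intro u k h1 h2
    obtain ⟨l1, l2, l3, l4, k1, k2, k3, k4⟩ := H.d7 (-u) k (by omega) (by omega)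
    refine ⟨-l4, -l3, -l2, -l1, by omega, by omega, by omega, fun v => ?_⟩
    rw [hm_ball, k4]
    omega
  · intro v h1 h2
    refine hm_anc.2 ?_
    have := H.z1 (-v) (by omega) (by omega)
    unfold rf
    rwa [neg_neg]
  · intro t w e h1 h2 h3 h4 h5 h6 h7
    obtain ⟨k1, k2⟩ := H.z2 (-t) (-w) (-e) (by omega) (by omega) (hm_anc.1 h3) (by omega)
      (hm_anc.1 h5) (by omega) h7
    have k3 := hm_ne T H (t := -t) (by omega) (by omega) (hm_anc.1 h3) (by omega)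
      (hm_anc.1 h5) (by omega) h7
    unfold rf
    omega
  · intro t u v h1 h2 h3 h4 h5 h6 h7
    obtain ⟨k1, k2⟩ := H.z3 (-t) (-v) (-u) (by omega) (by omega) (hm_anc.1 h4) (hm_anc.1 h3)
      (by omega) (by omega) (by omega)
    unfold rf
    exact ⟨fun h => k2 (by omega), fun h => k1 (by omega)⟩
  · intro u v t y h1 h2 h3 h4 h5 h6 h7 h8
    obtain ⟨h, k1, k2, k3, k4⟩ := H.hole (-u) (-v) (-t) (-y) (by omega) (by omega) (by omega)
      (by omega) (by omega) (hm_ball.1 h6) (hm_anc.1 h7) h8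
    refine ⟨-h, by omega, by omega, fun y' hy => ?_, fun t' y' m1 m2 m3 => ?_⟩
    · have := hm_anc.1 hy
      rw [neg_neg] at this
      exact k3 _ this
    · obtain ⟨j1, j2, j3⟩ := k4 (-t') (-y') (hm_ball.1 m1) (hm_anc.1 m2) m3
      refine ⟨hm_anc.2 (by rwa [neg_neg]), hm_anc.2 (by rwa [neg_neg]), ?_⟩
      unfold rf
      rw [neg_neg, j3]

end Pool.Agent.Lib.TVH
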