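import Pool.Agent.Lib.MP_3ecc11_lc.Tree

set_option autoImplicit false
set_option linter.unusedVariables false

namespace Pool.Agent.Lib.TVH

open Pool.Agent.Lib.MP_3ecc11_lc

/-- the ball of radius `k` around `u` among the keys `0 < v < N` -/
noncomputable def ball (N : ℤ) (d : ℤ → ℤ → ℕ) (u : ℤ) (k : ℕ) : Finset ℤ :=
  (Finset.Ioo 0 N).filter (fun v => d u v ≤ k)

/-- the hierarchy: an ultrametric `d` on the keys and the bottom `z` of the heavy path -/
structure Hier (N : ℤ) (a b : ℤ → ℤ) (d : ℤ → ℤ → ℕ) (z : ℤ → ℤ) : Prop where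
  d0 : ∀ u v, 0 < u → u < N → 0 < v → v < N → (d u v = 0 ↔ u = v)
  sym : ∀ u v, 0 < u → u < N → 0 < v → v < N → d u v = d v u
  d1 : ∀ u v w, 0 < u → u < N → 0 < v → v < N → 0 < w → w < N → d u w ≤ max (d u v) (d v w)
  d2 : ∀ u v w, 0 < u → u < N → 0 < v → v < N → 0 < w → w < N → d u v = d u w → 0 < d u v →
    d v w < d u v
  d3 : ∀ u v w, 0 < u → u < N → a u < v → v < b u → a v < w → w < b v →
    d u v ≤ d u w ∧ d v w ≤ d u w
  d4 : ∀ u k, 0 < u → u < N → (ball N d u k).card ≤ 2 ^ k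
  d5 : ∀ u v, 0 < u → u < N → 0 < v → v < N → 0 < d u v →
    2 ^ d u v ≤ 128 * (ball N d u (d u v)).card ^ 5
  d6 : ∀ u k, 0 < u → u < N → ∃ m ∈ ball N d u k, ∀ v ∈ ball N d u k, a m < v ∧ v < b m
  d7 : ∀ u k, 0 < u → u < N → ∃ l1 l2 l3 l4 : ℤ, l1 ≤ l2 ∧ l2 < l3 ∧ l3 ≤ l4 ∧
    ∀ v, v ∈ ball N d u k ↔ (l1 < v ∧ v < l4 ∧ ¬ (l2 < v ∧ v < l3))
  z1 : ∀ v, 0 < v → v < N → a v < z v ∧ z v < b v
  z2 : ∀ t w e, 0 < t → t < N → a t < w → w < b t → w ≠ t → a w < e → e < b w → e ≠ w →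
    d t w < d w e → z t = z w ∧ (w < e ↔ w < z w)
  z3 : ∀ t u v, 0 < t → t < N → a t < u → u ≤ v → v < b t → u ≠ t → v ≠ t →
    (v ≤ z t → d t u ≤ d t v) ∧ (z t ≤ u → d t v ≤ d t u)

section
variable {N : ℤ} {a b : ℤ → ℤ}

theorem sub (h : Lam 0 N a b) {t v : ℤ} (t1 : 0 < t) (t2 : t < N) (v1 : a t < v) (v2 : v < b t) :
    0 < v ∧ v < N ∧ a t ≤ a v ∧ b v ≤ b t ∧ (v < t → b v ≤ t) ∧ (t < v → t ≤ a v) := by
  have p := h.pl t t1 t2
  rcases lt_trichotomy v t with c | c | c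
  · have := h.l1 t v t1 t2 v1 c
    omega
  · subst c; omega
  · have := h.l2 t v t1 t2 c v2
    omega

theorem lam3 (h : Lam 0 N a b) {t s u : ℤ} (t1 : 0 < t) (t2 : t < N) (s1 : 0 < s) (s2 : s < N)
    (u1 : a t < u) (u2 : u < b t) (u3 : a s < u) (u4 : u < b s) :
    (a s < t ∧ t < b s) ∨ (a t < s ∧ s < b t) := by
  have pt := h.pl t t1 t2
  have ps := h.pl s s1 s2
  by_contra hc
  rcases lt_trichotomy t s with c | c | c
  · have e1 : t ≤ a s := by omega
    have e2 : b t ≤ s := by omega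
    have l := h.l4 s s1 s2 (by omega)
    rcases eq_or_lt_of_le e1 with e | e
    · rw [← e] at l; omega
    · have := h.l2 t (a s) t1 t2 e (by omega)
      omega
  · subst c; omega
  · have e1 : s ≤ a t := by omega
    have e2 : b s ≤ t := by omega
    have l := h.l4 t t1 t2 (by omega)
    rcases eq_or_lt_of_le e1 with e | e
    · rw [← e] at l; omega
    · have := h.l2 s (a t) s1 s2 e (by omega)
      omega

/-- a closed nonempty interval has a root -/
theorem root (h : Lam 0 N a b) {lo hi : ℤ} (l0 : 0 ≤ lo) (hN : hi ≤ N) (ne : lo + 1 < hi)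
    (cl : ∀ v, lo < v → v < hi → lo ≤ a v ∧ b v ≤ hi) :
    ∃ r, lo < r ∧ r < hi ∧ a r = lo ∧ b r = hi := by
  obtain ⟨r, hr, hm⟩ := Finset.exists_max_image (Finset.Ioo lo hi) (fun v => b v - a v)
    ⟨lo + 1, Finset.mem_Ioo.2 ⟨by omega, ne⟩⟩
  rw [Finset.mem_Ioo] at hr
  have p := h.pl r (by omega) (by omega)
  have c := cl r hr.1 hr.2
  refine ⟨r, hr.1, hr.2, ?_, ?_⟩
  · by_contra e
    have l := h.l4 r (by omega) (by omega) (by omega)
    have p' := h.pl (a r) (by omega) (by omega)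
    have := hm (a r) (Finset.mem_Ioo.2 ⟨by omega, by omega⟩)
    omega
  · by_contra e
    have l := h.l3 r (by omega) (by omega) (by omega)
    have p' := h.pl (b r) (by omega) (by omega)
    have := hm (b r) (Finset.mem_Ioo.2 ⟨by omega, by omega⟩)
    omega

/-- the properties of the bottom of the heavy path at `v` -/
def ZP (a b z : ℤ → ℤ) (v : ℤ) : Prop :=
  a v < z v ∧ z v < b v ∧ (∀ x, a v < x → x < b v → a x < z v → z v < b x → z x = z v) ∧
    (z v < v → b v - v ≤ v - a v) ∧ (v < z v → v - a v ≤ b v - v) ∧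
    (z v = v → a v + 1 = v ∧ v + 1 = b v)

theorem zex (h : Lam 0 N a b) : ∀ (n : ℕ) (lo hi : ℤ), 0 ≤ lo → hi ≤ N → hi - lo ≤ n →
    (∀ v, lo < v → v < hi → lo ≤ a v ∧ b v ≤ hi) → ∃ z : ℤ → ℤ, ∀ v, lo < v → v < hi → ZP a b z v := by
  intro n
  induction n with
  | zero => exact fun lo hi _ _ h3 _ => ⟨id, fun v v1 v2 => by omega⟩
  | succ n ih =>
    intro lo hi l0 hN hn cl
    by_cases ne : lo + 1 < hi
    swap
    · exact ⟨id, fun v v1 v2 => by omega⟩
    obtain ⟨r, r1, r2, r3, r4⟩ := root h l0 hN ne cl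
    have cl1 : ∀ v, lo < v → v < r → lo ≤ a v ∧ b v ≤ r := fun v v1 v2 => by
      have := h.l1 r v (by omega) (by omega) (by omega) v2
      omega
    have cl2 : ∀ v, r < v → v < hi → r ≤ a v ∧ b v ≤ hi := fun v v1 v2 => by
      have := h.l2 r v (by omega) (by omega) v1 (by omega)
      omega
    obtain ⟨z1, h1⟩ := ih lo r l0 (by omega) (by push_cast at hn; omega) cl1
    obtain ⟨z2, h2⟩ := ih r hi (by omega) hN (by push_cast at hn; omega) cl2
    have key : ∃ y, lo < y ∧ y < hi ∧ (∀ x, lo < x → x < r → a x < y → y < b x → z1 x = y) ∧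
        (∀ x, r < x → x < hi → a x < y → y < b x → z2 x = y) ∧ (y < r → hi - r ≤ r - lo) ∧
        (r < y → r - lo ≤ hi - r) ∧ (y = r → lo + 1 = r ∧ r + 1 = hi) := by
      by_cases g : lo + 1 < r ∧ hi - r ≤ r - lo
      · obtain ⟨c, c1, c2, c3, c4⟩ := root h l0 (by omega) g.1 cl1
        obtain ⟨k1, k2, k3, -⟩ := h1 c c1 c2
        refine ⟨z1 c, by omega, by omega, fun x x1 x2 x3 x4 => k3 x (by omega) (by omega) x3 x4,
          fun x x1 x2 x3 x4 => ?_, fun _ => g.2, fun _ => by omega, fun _ => by omega⟩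
        have := cl2 x x1 x2
        omega
      · by_cases g' : r + 1 < hi
        · obtain ⟨c, c1, c2, c3, c4⟩ := root h (by omega) hN g' cl2
          obtain ⟨k1, k2, k3, -⟩ := h2 c c1 c2
          refine ⟨z2 c, by omega, by omega, fun x x1 x2 x3 x4 => ?_,
            fun x x1 x2 x3 x4 => k3 x (by omega) (by omega) x3 x4, fun _ => by omega,
            fun _ => by omega, fun _ => by omega⟩
          have := cl1 x x1 x2
          omega
        · exact ⟨r, r1, r2, fun x x1 x2 => by omega, fun x x1 x2 => by omega, fun _ => by omega,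
            fun _ => by omega, fun _ => by omega⟩
    obtain ⟨y, y1, y2, y3, y4, y5, y6, y7⟩ := key
    refine ⟨fun v => if v < r then z1 v else if r < v then z2 v else y, fun v v1 v2 => ?_⟩
    rcases lt_trichotomy v r with c | c | c
    · obtain ⟨k1, k2, k3, k4⟩ := h1 v v1 c
      have := cl1 v v1 c
      unfold ZP
      simp only [if_pos c]
      refine ⟨k1, k2, fun x x1 x2 x3 x4 => ?_, k4⟩
      rw [if_pos (by omega)]
      exact k3 x x1 x2 x3 x4
    · subst c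
      unfold ZP
      simp only [lt_irrefl, if_false]
      refine ⟨by omega, by omega, fun x x1 x2 x3 x4 => ?_, by omega, by omega, by omega⟩
      rcases lt_trichotomy x v with e | e | e
      · rw [if_pos e]; exact y3 x (by omega) e x3 x4
      · rw [if_neg (by omega), if_neg (by omega)]
      · rw [if_neg (by omega), if_pos e]; exact y4 x e (by omega) x3 x4
    · obtain ⟨k1, k2, k3, k4⟩ := h2 v c v2
      have := cl2 v c v2
      unfold ZP
      simp only [if_pos c, if_neg (not_lt.2 c.le)]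
      refine ⟨k1, k2, fun x x1 x2 x3 x4 => ?_, k4⟩
      rw [if_neg (by omega), if_pos (by omega)]
      exact k3 x x1 x2 x3 x4

end

/-- an interval on the heavy path with bottom `z0` -/
def PI (N : ℤ) (a b z : ℤ → ℤ) (z0 lo hi : ℤ) : Prop :=
  (∃ h, 0 < h ∧ h < N ∧ a h = lo ∧ b h = hi ∧ z h = z0) ∨ (lo = z0 ∧ hi = z0 + 1)

noncomputable def seg (l1 l2 l3 l4 : ℤ) : Finset ℤ := Finset.Ioo l1 l4 \ Finset.Ioo l2 l3

theorem mem_seg {l1 l2 l3 l4 v : ℤ} :
    v ∈ seg l1 l2 l3 l4 ↔ (l1 < v ∧ v < l4 ∧ ¬ (l2 < v ∧ v < l3)) := by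
  unfold seg
  rw [Finset.mem_sdiff, Finset.mem_Ioo, Finset.mem_Ioo, and_assoc]

theorem card_seg {l1 l2 l3 l4 : ℤ} (h1 : l1 ≤ l2) (h2 : l2 < l3) (h3 : l3 ≤ l4) :
    ((seg l1 l2 l3 l4).card : ℤ) = l4 - l1 - (l3 - l2) := by
  have h := Finset.card_sdiff_add_card_eq_card
    (show Finset.Ioo l2 l3 ⊆ Finset.Ioo l1 l4 from Finset.Ioo_subset_Ioo h1 h3)
  rw [Int.card_Ioo, Int.card_Ioo] at h
  unfold seg
  omega

def Good (N : ℤ) (a b z : ℤ → ℤ) (B : Finset ℤ) : Prop :=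
  (∃ u, B = {u}) ∨ ∃ z0 l1 l2 l3 l4, PI N a b z z0 l1 l4 ∧ PI N a b z z0 l2 l3 ∧ l1 ≤ l2 ∧
    l2 < l3 ∧ l3 ≤ l4 ∧ B = seg l1 l2 l3 l4

/-- a binary hierarchy on the set `S`, of height at most `H`, all of whose balls satisfy `G` -/
structure HS (G : Finset ℤ → Prop) (S : Finset ℤ) (d : ℤ → ℤ → ℕ) (H : ℕ) : Prop where
  d0 : ∀ u ∈ S, ∀ v ∈ S, (d u v = 0 ↔ u = v)
  sym : ∀ u ∈ S, ∀ v ∈ S, d u v = d v u
  d1 : ∀ u ∈ S, ∀ v ∈ S, ∀ w ∈ S, d u w ≤ max (d u v) (d v w)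
  d2 : ∀ u ∈ S, ∀ v ∈ S, ∀ w ∈ S, d u v = d u w → 0 < d u v → d v w < d u v
  le : ∀ u ∈ S, ∀ v ∈ S, d u v ≤ H
  tot : S.card ≤ 2 ^ H
  d4 : ∀ u ∈ S, ∀ k, (S.filter (fun v => d u v ≤ k)).card ≤ 2 ^ k
  d5 : ∀ u ∈ S, ∀ v ∈ S, 0 < d u v →
    2 ^ d u v ≤ 128 * (S.filter (fun w => d u w ≤ d u v)).card ^ 5
  good : ∀ u ∈ S, ∀ k, G (S.filter (fun v => d u v ≤ k))

theorem HS.empty (G : Finset ℤ → Prop) : HS G ∅ (fun _ _ => 0) 0 := by
  refine ⟨?_, ?_, ?_, ?_, ?_, by simp, ?_, ?_, ?_⟩ <;> simp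

theorem HS.single (G : Finset ℤ → Prop) (x : ℤ) (hG : G {x}) : HS G {x} (fun _ _ => 0) 0 := by
  refine ⟨?_, ?_, ?_, ?_, ?_, by simp, ?_, ?_, ?_⟩
  · simp +contextual
  · simp
  · simp
  · simp
  · simp
  · intro u _ k
    simp only [Nat.zero_le, Finset.filter_true, Finset.card_singleton]
    exact Nat.one_le_two_pow
  · simp
  · intro u _ k
    simpa using hG

theorem HS.join {G : Finset ℤ → Prop} {S1 S2 S : Finset ℤ} {d1 d2 : ℤ → ℤ → ℕ} {H1 H2 : ℕ}
    (h1 : HS G S1 d1 H1) (h2 : HS G S2 d2 H2) (dj : ∀ v ∈ S1, v ∉ S2)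
    (hS : ∀ v, v ∈ S ↔ v ∈ S1 ∨ v ∈ S2) (hG : G S)
    (hb : 2 ^ (max H1 H2 + 1) ≤ 128 * S.card ^ 5) : ∃ d, HS G S d (max H1 H2 + 1) := by
  classical
  set K := max H1 H2 + 1 with hK
  let d : ℤ → ℤ → ℕ := fun u v =>
    if u ∈ S1 then (if v ∈ S1 then d1 u v else K) else (if v ∈ S1 then K else d2 u v)
  have e11 : ∀ u ∈ S1, ∀ v ∈ S1, d u v = d1 u v := fun u hu v hv => by simp [d, hu, hv]
  have e12 : ∀ u ∈ S1, ∀ v ∈ S2, d u v = K := fun u hu v hv => by
    have : v ∉ S1 := fun g => dj v g hv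
    simp [d, hu, this]
  have e21 : ∀ u ∈ S2, ∀ v ∈ S1, d u v = K := fun u hu v hv => by
    have : u ∉ S1 := fun g => dj u g hu
    simp [d, hv, this]
  have e22 : ∀ u ∈ S2, ∀ v ∈ S2, d u v = d2 u v := fun u hu v hv => by
    have : u ∉ S1 := fun g => dj u g hu
    have : v ∉ S1 := fun g => dj v g hv
    simp [d, *]
  have k1 : H1 < K := by omega
  have k2 : H2 < K := by omega
  have hle : ∀ u ∈ S, ∀ v ∈ S, d u v ≤ K := by
    intro u hu v hv
    rcases (hS u).1 hu with a | a <;> rcases (hS v).1 hv with c | c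
    · have := h1.le u a v c
      rw [e11 u a v c]; omega
    · rw [e12 u a v c]
    · rw [e21 u a v c]
    · have := h2.le u a v c
      rw [e22 u a v c]; omega
  have tot : S.card ≤ 2 ^ K := by
    have s : S ⊆ S1 ∪ S2 := fun v hv => Finset.mem_union.2 ((hS v).1 hv)
    have c := le_trans (Finset.card_le_card s) (Finset.card_union_le _ _)
    have t1 := le_trans h1.tot (Nat.pow_le_pow_right (by norm_num) (le_max_left H1 H2))
    have t2 := le_trans h2.tot (Nat.pow_le_pow_right (by norm_num) (le_max_right H1 H2))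
    rw [hK, pow_succ]
    omega
  have bK : ∀ u ∈ S, ∀ k, K ≤ k → S.filter (fun v => d u v ≤ k) = S := fun u hu k hk =>
    Finset.filter_true_of_mem (fun v hv => le_trans (hle u hu v hv) hk)
  have b1 : ∀ u ∈ S1, ∀ k, k < K → S.filter (fun v => d u v ≤ k) = S1.filter (fun v => d1 u v ≤ k) := by
    intro u hu k hk
    ext v
    rw [Finset.mem_filter, Finset.mem_filter, hS]
    constructor
    · rintro ⟨c | c, g⟩
      · exact ⟨c, by rwa [e11 u hu v c] at g⟩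
      · rw [e12 u hu v c] at g; omega
    · rintro ⟨c, g⟩
      exact ⟨Or.inl c, by rwa [e11 u hu v c]⟩
  have b2 : ∀ u ∈ S2, ∀ k, k < K → S.filter (fun v => d u v ≤ k) = S2.filter (fun v => d2 u v ≤ k) := by
    intro u hu k hk
    ext v
    rw [Finset.mem_filter, Finset.mem_filter, hS]
    constructor
    · rintro ⟨c | c, g⟩
      · rw [e21 u hu v c] at g; omega
      · exact ⟨c, by rwa [e22 u hu v c] at g⟩
    · rintro ⟨c, g⟩
      exact ⟨Or.inr c, by rwa [e22 u hu v c]⟩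
  refine ⟨d, fun u hu v hv => ?_, fun u hu v hv => ?_, fun u hu v hv w hw => ?_,
    fun u hu v hv w hw => ?_, hle, tot, fun u hu k => ?_, fun u hu v hv => ?_, fun u hu k => ?_⟩
  · rcases (hS u).1 hu with a | a <;> rcases (hS v).1 hv with c | c
    · rw [e11 u a v c]; exact h1.d0 u a v c
    · rw [e12 u a v c]
      exact ⟨fun g => by omega, fun g => absurd (g ▸ c) (dj u a)⟩
    · rw [e21 u a v c]
      exact ⟨fun g => by omega, fun g => absurd (g ▸ a) (dj v c)⟩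
    · rw [e22 u a v c]; exact h2.d0 u a v c
  · rcases (hS u).1 hu with a | a <;> rcases (hS v).1 hv with c | c
    · rw [e11 u a v c, e11 v c u a]; exact h1.sym u a v c
    · rw [e12 u a v c, e21 v c u a]
    · rw [e21 u a v c, e12 v c u a]
    · rw [e22 u a v c, e22 v c u a]; exact h2.sym u a v c
  · have l := hle u hu w hw
    rcases (hS u).1 hu with a | a <;> rcases (hS v).1 hv with c | c
    · rcases (hS w).1 hw with e | e
      · rw [e11 u a v c, e11 u a w e, e11 v c w e]; exact h1.d1 u a v c w e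
      · rw [e12 v c w e]; omega
    · rw [e12 u a v c]; omega
    · rw [e21 u a v c]; omega
    · rcases (hS w).1 hw with e | e
      · rw [e21 v c w e]; omega
      · rw [e22 u a v c, e22 u a w e, e22 v c w e]; exact h2.d1 u a v c w e
  · rcases (hS u).1 hu with a | a <;> rcases (hS v).1 hv with c | c <;>
      rcases (hS w).1 hw with e | e
    · rw [e11 u a v c, e11 u a w e, e11 v c w e]; exact h1.d2 u a v c w e
    · have := h1.le u a v c
      rw [e11 u a v c, e12 u a w e]; omega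
    · have := h1.le u a w e
      rw [e12 u a v c, e11 u a w e]; omega
    · have := h2.le v c w e
      rw [e12 u a v c, e22 v c w e]; omega
    · have := h1.le v c w e
      rw [e21 u a v c, e11 v c w e]; omega
    · have := h2.le u a w e
      rw [e21 u a v c, e22 u a w e]; omega
    · have := h2.le u a v c
      rw [e22 u a v c, e21 u a w e]; omega
    · rw [e22 u a v c, e22 u a w e, e22 v c w e]; exact h2.d2 u a v c w e
  · by_cases hk : K ≤ k
    · rw [bK u hu k hk]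
      exact le_trans tot (Nat.pow_le_pow_right (by norm_num) hk)
    · rcases (hS u).1 hu with a | a
      · rw [b1 u a k (by omega)]; exact h1.d4 u a k
      · rw [b2 u a k (by omega)]; exact h2.d4 u a k
  · rcases (hS u).1 hu with a | a <;> rcases (hS v).1 hv with c | c
    · have := h1.le u a v c
      rw [e11 u a v c, b1 u a _ (by omega)]; exact h1.d5 u a v c
    · rw [e12 u a v c, bK u hu K le_rfl]; exact fun _ => hb
    · rw [e21 u a v c, bK u hu K le_rfl]; exact fun _ => hb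
    · have := h2.le u a v c
      rw [e22 u a v c, b2 u a _ (by omega)]; exact h2.d5 u a v c
  · by_cases hk : K ≤ k
    · rw [bK u hu k hk]; exact hG
    · rcases (hS u).1 hu with a | a
      · rw [b1 u a k (by omega)]; exact h1.good u a k
      · rw [b2 u a k (by omega)]; exact h2.good u a k

section
variable {N : ℤ} {a b z : ℤ → ℤ}

theorem pow_max_le {p q c : ℕ} (h1 : 2 ^ p ≤ c) (h2 : 2 ^ q ≤ c) : 2 ^ (max p q + 1) ≤ 2 * c := by
  rw [pow_succ]
  rcases le_total p q with g | g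
  · rw [max_eq_right g]; omega
  · rw [max_eq_left g]; omega

theorem p5 {s W : ℕ} (h : 2 * s ≤ W) : 32 * s ^ 5 ≤ W ^ 5 := by
  have := Nat.pow_le_pow_left h 5
  rw [mul_pow] at this
  norm_num at this
  exact this

/-- a hole not containing a node of the path lies in the heavy side of the node -/
theorem hole (h : Lam 0 N a b) (hz : ∀ v, 0 < v → v < N → ZP a b z v) {z0 l2 l3 x : ℤ}
    (hI : PI N a b z z0 l2 l3) (x1 : 0 < x) (x2 : x < N) (x3 : z x = z0)
    (x4 : ¬ (l2 < x ∧ x < l3)) :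
    (z0 < x → a x ≤ l2 ∧ l3 ≤ x) ∧ (x ≤ z0 → x ≤ l2 ∧ l3 ≤ b x) := by
  obtain ⟨k1, k2, -⟩ := hz x x1 x2
  rcases hI with ⟨y, y1, y2, y3, y4, y5⟩ | hI
  · obtain ⟨j1, j2, -⟩ := hz y y1 y2
    have l := lam3 h x1 x2 y1 y2 (u := z0) (by omega) (by omega) (by omega) (by omega)
    have py := h.pl y y1 y2
    have s := sub h x1 x2 (v := y) (by omega) (by omega)
    omega
  · omega

theorem heavyL (h : Lam 0 N a b) (hz : ∀ v, 0 < v → v < N → ZP a b z v) {x : ℤ}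
    (x1 : 0 < x) (x2 : x < N) (x3 : z x < x) : PI N a b z (z x) (a x) x := by
  obtain ⟨k1, k2, k3, -⟩ := hz x x1 x2
  have px := h.pl x x1 x2
  obtain ⟨c, c1, c2, c3, c4⟩ := root h (lo := a x) (hi := x) px.1 x2.le (by omega)
    (fun v v1 v2 => h.l1 x v x1 x2 v1 v2)
  exact Or.inl ⟨c, by omega, by omega, c3, c4, k3 c c1 (by omega) (by omega) (by omega)⟩

theorem heavyR (h : Lam 0 N a b) (hz : ∀ v, 0 < v → v < N → ZP a b z v) {x : ℤ}
    (x1 : 0 < x) (x2 : x < N) (x3 : x ≤ z x) : PI N a b z (z x) x (b x) := by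
  obtain ⟨k1, k2, k3, k4, k5, k6⟩ := hz x x1 x2
  have px := h.pl x x1 x2
  rcases eq_or_lt_of_le x3 with e | e
  · exact Or.inr (by omega)
  obtain ⟨c, c1, c2, c3, c4⟩ := root h (lo := x) (hi := b x) x1.le px.2.2.2 (by omega)
    (fun v v1 v2 => h.l2 x v x1 x2 v1 v2)
  exact Or.inl ⟨c, by omega, by omega, c3, c4, k3 c (by omega) c2 (by omega) (by omega)⟩

/-- the four pieces are joined -/
theorem glue {G : Finset ℤ → Prop} {U L D S1 S2 S : Finset ℤ} {x : ℤ} {dU dL dD : ℤ → ℤ → ℕ}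
    {HU HL HD : ℕ} (hU : HS G U dU HU) (hL : HS G L dL HL) (hD : HS G D dD HD) (gx : G {x})
    (g1 : G S1) (g2 : G S2) (g : G S) (m1 : ∀ v, v ∈ S1 ↔ v ∈ ({x} : Finset ℤ) ∨ v ∈ L)
    (m2 : ∀ v, v ∈ S2 ↔ v ∈ S1 ∨ v ∈ D) (m : ∀ v, v ∈ S ↔ v ∈ S2 ∨ v ∈ U)
    (j1 : ∀ v ∈ ({x} : Finset ℤ), v ∉ L) (j2 : ∀ v ∈ S1, v ∉ D) (j : ∀ v ∈ S2, v ∉ U)
    (bU : HU = 0 ∨ 2 ^ HU ≤ 64 * U.card ^ 5) (bL : HL = 0 ∨ 2 ^ HL ≤ 8 * L.card ^ 5)
    (bD : HD = 0 ∨ 2 ^ HD ≤ 64 * D.card ^ 5) (cU : 2 * U.card ≤ S.card)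
    (cD : 2 * D.card ≤ S.card) :
    ∃ d H, HS G S d H ∧ 2 ^ H ≤ 64 * S.card ^ 5 ∧
      (2 * L.card ≤ S.card → 2 ^ H ≤ 8 * S.card ^ 5) := by
  have s1 : S1 ⊆ S2 := fun v hv => (m2 v).2 (Or.inl hv)
  have s2 : S2 ⊆ S := fun v hv => (m v).2 (Or.inl hv)
  have sL : L ⊆ S1 := fun v hv => (m1 v).2 (Or.inr hv)
  have sD : D ⊆ S2 := fun v hv => (m2 v).2 (Or.inr hv)
  have p1 : 1 ≤ S1.card := Finset.card_pos.2 ⟨x, (m1 x).2 (Or.inl (Finset.mem_singleton_self x))⟩
  have q1 := Nat.pow_le_pow_left p1 5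
  have q2 := Nat.pow_le_pow_left (Finset.card_le_card s1) 5
  have q3 := Nat.pow_le_pow_left (Finset.card_le_card s2) 5
  have q4 := Nat.pow_le_pow_left (Finset.card_le_card sL) 5
  have q5 := Nat.pow_le_pow_left (Finset.card_le_card sD) 5
  have q6 := p5 cU
  have q7 := p5 cD
  rw [one_pow] at q1
  have aL : 2 ^ HL ≤ 8 * S1.card ^ 5 := by
    rcases bL with e | e
    · rw [e]; omega
    · omega
  have a1 : 2 ^ (max 0 HL + 1) ≤ 2 * (8 * S1.card ^ 5) := pow_max_le (by omega) aL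
  obtain ⟨d1, h1⟩ := (HS.single G x gx).join hL j1 m1 g1 (by omega)
  have aD : 2 ^ HD ≤ 64 * S2.card ^ 5 := by
    rcases bD with e | e
    · rw [e]; omega
    · omega
  have aD' : 2 ^ HD ≤ 2 * S.card ^ 5 := by
    rcases bD with e | e
    · rw [e]; omega
    · omega
  have aU : 2 ^ HU ≤ 2 * S.card ^ 5 := by
    rcases bU with e | e
    · rw [e]; omega
    · omega
  have a2 : 2 ^ (max (max 0 HL + 1) HD + 1) ≤ 2 * (64 * S2.card ^ 5) := pow_max_le (by omega) aD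
  obtain ⟨d2, h2⟩ := h1.join hD j2 m2 g2 (by omega)
  have a3 : 2 ^ (max (max 0 HL + 1) HD + 1) ≤ 2 * (16 * S.card ^ 5) :=
    pow_max_le (by omega) (by omega)
  have a4 : 2 ^ (max (max (max 0 HL + 1) HD + 1) HU + 1) ≤ 2 * (32 * S.card ^ 5) :=
    pow_max_le (by omega) (by omega)
  obtain ⟨d3, h3⟩ := h2.join hU j m g (by omega)
  refine ⟨d3, _, h3, by omega, fun cL => ?_⟩
  have q8 := p5 cL
  have c0 : 2 ^ HL ≤ S.card ^ 5 := by
    rcases bL with e | e
    · rw [e]; omega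
    · omega
  have c1 : 2 ^ (max 0 HL + 1) ≤ 2 * (S.card ^ 5) := pow_max_le (by omega) c0
  have c2 : 2 ^ (max (max 0 HL + 1) HD + 1) ≤ 2 * (2 * S.card ^ 5) := pow_max_le c1 aD'
  have c3 : 2 ^ (max (max (max 0 HL + 1) HD + 1) HU + 1) ≤ 2 * (4 * S.card ^ 5) :=
    pow_max_le (by omega) (by omega)
  omega

theorem segH (h : Lam 0 N a b) (hz : ∀ v, 0 < v → v < N → ZP a b z v) : ∀ (n : ℕ)
    (z0 l1 l2 l3 l4 : ℤ), PI N a b z z0 l1 l4 → PI N a b z z0 l2 l3 → l1 ≤ l2 → l2 < l3 → l3 ≤ l4 →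
    (seg l1 l2 l3 l4).card ≤ n → ∃ d H, HS (Good N a b z) (seg l1 l2 l3 l4) d H ∧
      (H = 0 ∨ 2 ^ H ≤ 64 * (seg l1 l2 l3 l4).card ^ 5) ∧
      (l3 = l2 + 1 → H = 0 ∨ 2 ^ H ≤ 8 * (seg l1 l2 l3 l4).card ^ 5) := by
  intro n
  induction n with
  | zero =>
    intro z0 l1 l2 l3 l4 _ _ _ _ _ hn
    rw [Finset.card_eq_zero.1 (Nat.le_zero.1 hn)]
    exact ⟨_, 0, HS.empty _, Or.inl rfl, fun _ => Or.inl rfl⟩
  | succ n ih =>
    intro z0 l1 l2 l3 l4 hO hI o1 o2 o3 hn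
    have cS := card_seg o1 o2 o3
    rcases Nat.eq_zero_or_pos (seg l1 l2 l3 l4).card with e | e
    · rw [Finset.card_eq_zero.1 e]
      exact ⟨_, 0, HS.empty _, Or.inl rfl, fun _ => Or.inl rfl⟩
    obtain ⟨m, m1, m2, m3, m4, m5⟩ : ∃ m, 0 < m ∧ m < N ∧ a m = l1 ∧ b m = l4 ∧ z m = z0 := by
      rcases hO with hO | hO
      · exact hO
      · omega
    have pm := h.pl m m1 m2
    have mI : ¬ (l2 < m ∧ m < l3) := by
      intro g
      rcases hI with ⟨y, y1, y2, y3, y4, y5⟩ | hI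
      · have := sub h y1 y2 (v := m) (by omega) (by omega)
        omega
      · omega
    obtain ⟨x, hx, hmin⟩ := Finset.exists_min_image ((Finset.Ioo l1 l4).filter (fun x => z x = z0 ∧
      ¬ (l2 < x ∧ x < l3) ∧ l4 - l1 - (l3 - l2) ≤ 2 * (b x - a x - (l3 - l2)))) (fun x => b x - a x)
      ⟨m, by rw [Finset.mem_filter, Finset.mem_Ioo]; omega⟩
    rw [Finset.mem_filter, Finset.mem_Ioo] at hx
    obtain ⟨⟨x1, x2⟩, x3, x4, x5⟩ := hx
    have sx := sub h m1 m2 (v := x) (by omega) (by omega)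
    have px := h.pl x sx.1 sx.2.1
    have ho := hole h hz hI sx.1 sx.2.1 x3 x4
    obtain ⟨k1, k2, k3, k4, k5, k6⟩ := hz x sx.1 sx.2.1
    have piX : PI N a b z z0 (a x) (b x) := Or.inl ⟨x, sx.1, sx.2.1, rfl, rfl, x3⟩
    -- the heavy side `(h1, h2)` and the light side `(s1, s2)`
    obtain ⟨h1, h2, s1, s2, piH, hs, lt⟩ : ∃ h1 h2 s1 s2, PI N a b z z0 h1 h2 ∧
        ((h1 = a x ∧ h2 = x ∧ s1 = x ∧ s2 = b x ∧ z0 < x) ∨
          (h1 = x ∧ h2 = b x ∧ s1 = a x ∧ s2 = x ∧ x ≤ z0)) ∧ s2 - s1 ≤ h2 - h1 := by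
      by_cases g : z0 < x
      · exact ⟨a x, x, x, b x, x3 ▸ heavyL h hz sx.1 sx.2.1 (by omega), by omega, by omega⟩
      · exact ⟨x, b x, a x, x, x3 ▸ heavyR h hz sx.1 sx.2.1 (by omega), by omega, by omega⟩
    have cU := card_seg (l1 := l1) (l2 := a x) (l3 := b x) (l4 := l4) (by omega) (by omega) (by omega)
    have cD := card_seg (l1 := h1) (l2 := l2) (l3 := l3) (l4 := h2) (by omega) (by omega) (by omega)
    have cD' : 2 * (h2 - h1 - (l3 - l2)) ≤ l4 - l1 - (l3 - l2) := by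
      rcases piH with ⟨c, c1, c2, c3, c4, c5⟩ | piH
      · have pc := h.pl c c1 c2
        by_cases g : l2 < c ∧ c < l3
        · rcases hI with ⟨y, y1, y2, y3, y4, y5⟩ | hI
          · have := sub h y1 y2 (v := c) (by omega) (by omega)
            omega
          · omega
        · by_contra hc
          have := hmin c (by rw [Finset.mem_filter, Finset.mem_Ioo]; omega)
          omega
      · omega
    obtain ⟨dU, HU, hU, bU, -⟩ := ih z0 l1 (a x) (b x) l4 hO piX (by omega) (by omega) (by omega)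
      (by omega)
    obtain ⟨dD, HD, hD, bD, -⟩ := ih z0 h1 l2 l3 h2 piH hI (by omega) (by omega) (by omega)
      (by omega)
    obtain ⟨L, dL, HL, hL, bL, mL, cL⟩ : ∃ (L : Finset ℤ) (dL : ℤ → ℤ → ℕ) (HL : ℕ),
        HS (Good N a b z) L dL HL ∧ (HL = 0 ∨ 2 ^ HL ≤ 8 * L.card ^ 5) ∧
        (∀ v, v ∈ L ↔ s1 < v ∧ v < s2) ∧ (L.card : ℤ) = s2 - s1 - 1 := by
      by_cases g : s1 + 1 < s2
      · obtain ⟨c, c1, c2, c3, c4⟩ := root h (lo := s1) (hi := s2) (by omega) (by omega) g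
          (fun v v1 v2 => by
            have := sub h sx.1 sx.2.1 (v := v) (by omega) (by omega)
            omega)
        obtain ⟨j1, j2, -⟩ := hz c (by omega) (by omega)
        have cL := card_seg (l1 := s1) (l2 := z c) (l3 := z c + 1) (l4 := s2) (by omega) (by omega)
          (by omega)
        obtain ⟨dL, HL, hL, -, bL⟩ := ih (z c) s1 (z c) (z c + 1) s2
          (Or.inl ⟨c, by omega, by omega, c3, c4, rfl⟩) (Or.inr ⟨rfl, rfl⟩) (by omega) (by omega)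
          (by omega) (by omega)
        exact ⟨_, dL, HL, hL, bL rfl, fun v => by rw [mem_seg]; omega, by omega⟩
      · exact ⟨∅, _, 0, HS.empty _, Or.inl rfl, fun v => by simp only [Finset.notMem_empty, false_iff]; omega,
          by simp only [Finset.card_empty]; omega⟩
    obtain ⟨d, H, g1, g2, g3⟩ := glue (x := x) (S1 := seg (a x) h1 h2 (b x))
      (S2 := seg (a x) l2 l3 (b x)) (S := seg l1 l2 l3 l4) hU hL hD (Or.inl ⟨x, rfl⟩)
      (Or.inr ⟨z0, _, _, _, _, piX, piH, by omega, by omega, by omega, rfl⟩)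
      (Or.inr ⟨z0, _, _, _, _, piX, hI, by omega, by omega, by omega, rfl⟩)
      (Or.inr ⟨z0, _, _, _, _, hO, hI, by omega, by omega, by omega, rfl⟩)
      (fun v => by rw [mem_seg, Finset.mem_singleton, mL]; omega)
      (fun v => by rw [mem_seg, mem_seg, mem_seg]; omega)
      (fun v => by rw [mem_seg, mem_seg, mem_seg]; omega)
      (fun v => by rw [Finset.mem_singleton, mL]; omega)
      (fun v => by rw [mem_seg, mem_seg]; omega)
      (fun v => by rw [mem_seg, mem_seg]; omega) bU bL bD (by omega) (by omega)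
    exact ⟨d, H, g1, Or.inr g2, fun e => Or.inr (g3 (by omega))⟩

/-- a descendant of a member of a good set that is missing lies in the hole -/
theorem Good.miss (h : Lam 0 N a b) (hz : ∀ v, 0 < v → v < N → ZP a b z v) {B : Finset ℤ}
    (hB : Good N a b z B) {t v u : ℤ} (t1 : 0 < t) (t2 : t < N) (ht : t ∈ B) (hv : v ∈ B)
    (ne : v ≠ t) (u1 : a t < u) (u2 : u < b t) (hu : u ∉ B) :
    ∃ l2 l3, l2 < u ∧ u < l3 ∧ l2 < z t ∧ z t < l3 ∧ (∀ w ∈ B, ¬ (l2 < w ∧ w < l3)) ∧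
      (∀ w ∈ B, 0 < w → w < N → a w < u → u < b w → z w = z t) ∧
      (∀ w, l2 < w → w < l3 → l2 ≤ a w ∧ b w ≤ l3) := by
  rcases hB with ⟨y, rfl⟩ | ⟨z0, l1, l2, l3, l4, hO, hI, o1, o2, o3, rfl⟩
  · rw [Finset.mem_singleton] at ht hv
    omega
  rw [mem_seg] at ht hv hu
  obtain ⟨m, m1, m2, m3, m4, m5⟩ : ∃ m, 0 < m ∧ m < N ∧ a m = l1 ∧ b m = l4 ∧ z m = z0 := by
    rcases hO with hO | hO
    · exact hO
    · omega
  have st := sub h m1 m2 (v := t) (by omega) (by omega)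
  obtain ⟨y, y1, y2, y3, y4, y5⟩ : ∃ y, 0 < y ∧ y < N ∧ a y = l2 ∧ b y = l3 ∧ z y = z0 := by
    rcases hI with hI | hI
    · exact hI
    · omega
  obtain ⟨j1, j2, -⟩ := hz y y1 y2
  have key : ∀ w, l1 < w → w < l4 → ¬ (l2 < w ∧ w < l3) → a w < u → u < b w → z w = z0 := by
    intro w w1 w2 w3 w4 w5
    have sw := sub h m1 m2 (v := w) (by omega) (by omega)
    have l := lam3 h sw.1 sw.2.1 y1 y2 w4 w5 (by omega) (by omega)
    have s := sub h sw.1 sw.2.1 (v := y) (by omega) (by omega)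
    rw [← m5]
    exact (hz m m1 m2).2.2.1 w (by omega) (by omega) (by omega) (by omega)
  have kt := key t ht.1 ht.2.1 ht.2.2 u1 u2
  refine ⟨l2, l3, by omega, by omega, by omega, by omega, fun w hw => (mem_seg.1 hw).2.2,
    fun w hw _ _ w4 w5 => ?_, fun w w1 w2 => ?_⟩
  · rw [mem_seg] at hw
    rw [kt]
    exact key w hw.1 hw.2.1 hw.2.2 w4 w5
  · have := sub h y1 y2 (v := w) (by omega) (by omega)
    omega

theorem hierG (h : Lam 0 N a b) : ∃ (d : ℤ → ℤ → ℕ) (z : ℤ → ℤ), Hier N a b d z ∧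
    (∀ u k, 0 < u → u < N → Good N a b z (ball N d u k)) ∧
    ∀ v, 0 < v → v < N → ZP a b z v := by
  obtain ⟨z, hz⟩ := zex h N.toNat 0 N le_rfl le_rfl (by omega)
    (fun v v1 v2 => by have := h.pl v v1 v2; omega)
  obtain ⟨d, H, g⟩ : ∃ d H, HS (Good N a b z) (Finset.Ioo 0 N) d H := by
    by_cases ne : 0 + 1 < N
    · obtain ⟨r, r1, r2, r3, r4⟩ := root h le_rfl le_rfl ne
        (fun v v1 v2 => by have := h.pl v v1 v2; omega)
      obtain ⟨j1, j2, -⟩ := hz r r1 r2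
      obtain ⟨d, H, g, -⟩ := segH h hz _ (z r) 0 (z r) (z r + 1) N (Or.inl ⟨r, r1, r2, r3, r4, rfl⟩)
        (Or.inr ⟨rfl, rfl⟩) (by omega) (by omega) (by omega) le_rfl
      have e : seg 0 (z r) (z r + 1) N = Finset.Ioo 0 N := by
        ext v
        rw [mem_seg, Finset.mem_Ioo]
        omega
      exact ⟨d, H, e ▸ g⟩
    · have e : Finset.Ioo 0 N = ∅ := by
        ext v
        simp only [Finset.mem_Ioo, Finset.notMem_empty, iff_false]
        omega
      exact ⟨_, 0, e ▸ HS.empty _⟩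
  have mem : ∀ {v}, 0 < v → v < N → v ∈ Finset.Ioo 0 N := fun v1 v2 => Finset.mem_Ioo.2 ⟨v1, v2⟩
  have mb : ∀ u v k, v ∈ ball N d u k ↔ (0 < v ∧ v < N) ∧ d u v ≤ k := fun u v k => by
    unfold ball
    rw [Finset.mem_filter, Finset.mem_Ioo]
  have self : ∀ u k, 0 < u → u < N → u ∈ ball N d u k := fun u k u1 u2 =>
    (mb u u k).2 ⟨⟨u1, u2⟩, by rw [(g.d0 u (mem u1 u2) u (mem u1 u2)).2 rfl]; omega⟩
  have gd : ∀ u k, 0 < u → u < N → Good N a b z (ball N d u k) := fun u k u1 u2 =>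
    g.good u (mem u1 u2) k
  have d3 : ∀ u v w, 0 < u → u < N → a u < v → v < b u → a v < w → w < b v → d u v ≤ d u w := by
    intro u v w u1 u2 v1 v2 w1 w2
    have sv := sub h u1 u2 v1 v2
    have sw := sub h sv.1 sv.2.1 w1 w2
    by_contra hc
    by_cases e : w = u
    · have e' : v = u := by omega
      rw [e, e'] at hc
      omega
    obtain ⟨l2, l3, k1, k2, -, -, k5, -, k7⟩ := (gd u (d u w) u1 u2).miss h hz u1 u2
      (self u _ u1 u2) ((mb u w _).2 ⟨⟨sw.1, sw.2.1⟩, le_rfl⟩) e v1 v2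
      (fun g => hc ((mb u v _).1 g).2)
    have := k7 v k1 k2
    exact k5 w ((mb u w _).2 ⟨⟨sw.1, sw.2.1⟩, le_rfl⟩) (by omega)
  refine ⟨d, z, ⟨fun u v u1 u2 v1 v2 => g.d0 u (mem u1 u2) v (mem v1 v2),
    fun u v u1 u2 v1 v2 => g.sym u (mem u1 u2) v (mem v1 v2),
    fun u v w u1 u2 v1 v2 w1 w2 => g.d1 u (mem u1 u2) v (mem v1 v2) w (mem w1 w2),
    fun u v w u1 u2 v1 v2 w1 w2 => g.d2 u (mem u1 u2) v (mem v1 v2) w (mem w1 w2),
    fun u v w u1 u2 v1 v2 w1 w2 => ?_, fun u k u1 u2 => g.d4 u (mem u1 u2) k,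
    fun u v u1 u2 v1 v2 => g.d5 u (mem u1 u2) v (mem v1 v2), fun u k u1 u2 => ?_,
    fun u k u1 u2 => ?_, fun v v1 v2 => ⟨(hz v v1 v2).1, (hz v v1 v2).2.1⟩,
    fun t w e t1 t2 w1 w2 w3 e1 e2 e3 hd => ?_, fun t u v t1 t2 u1 uv v2 ut vt => ?_⟩, gd, hz⟩
  · have sv := sub h u1 u2 v1 v2
    have sw := sub h sv.1 sv.2.1 w1 w2
    have a1 := d3 u v w u1 u2 v1 v2 w1 w2
    have a2 := g.d1 v (mem sv.1 sv.2.1) u (mem u1 u2) w (mem sw.1 sw.2.1)
    have a3 := g.sym v (mem sv.1 sv.2.1) u (mem u1 u2)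
    omega
  · have hu := self u k u1 u2
    rcases gd u k u1 u2 with ⟨y, e⟩ | ⟨z0, l1, l2, l3, l4, hO, hI, o1, o2, o3, e⟩
    · rw [e] at hu ⊢
      rw [Finset.mem_singleton] at hu
      subst hu
      have := h.pl u u1 u2
      exact ⟨u, Finset.mem_singleton_self u, fun v hv => by
        rw [Finset.mem_singleton] at hv; omega⟩
    · rw [e] at hu ⊢
      rw [mem_seg] at hu
      obtain ⟨m, m1, m2, m3, m4, m5⟩ : ∃ m, 0 < m ∧ m < N ∧ a m = l1 ∧ b m = l4 ∧ z m = z0 := by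
        rcases hO with hO | hO
        · exact hO
        · omega
      have pm := h.pl m m1 m2
      refine ⟨m, mem_seg.2 ⟨by omega, by omega, fun c => ?_⟩, fun v hv => by
        rw [mem_seg] at hv; omega⟩
      rcases hI with ⟨y, y1, y2, y3, y4, y5⟩ | hI
      · have := sub h y1 y2 (v := m) (by omega) (by omega)
        omega
      · omega
  · rcases gd u k u1 u2 with ⟨y, e⟩ | ⟨z0, l1, l2, l3, l4, hO, hI, o1, o2, o3, e⟩
    · exact ⟨y - 1, y, y + 1, y + 1, by omega, by omega, by omega, fun v => by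
        rw [e, Finset.mem_singleton]; omega⟩
    · exact ⟨l1, l2, l3, l4, o1, o2, o3, fun v => by rw [e, mem_seg]⟩
  · have sw := sub h t1 t2 w1 w2
    have se := sub h sw.1 sw.2.1 e1 e2
    have pw := h.pl w sw.1 sw.2.1
    have hw : w ∈ ball N d t (d t w) := (mb t w _).2 ⟨⟨sw.1, sw.2.1⟩, le_rfl⟩
    obtain ⟨l2, l3, k1, k2, k3, k4, k5, k6, k7⟩ := (gd t (d t w) t1 t2).miss h hz (u := e) t1 t2
      (self t _ t1 t2) hw w3 (by omega) (by omega) (fun c => by
        have a1 := ((mb t e _).1 c).2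
        have a2 := g.d1 w (mem sw.1 sw.2.1) t (mem t1 t2) e (mem se.1 se.2.1)
        have a3 := g.sym w (mem sw.1 sw.2.1) t (mem t1 t2)
        omega)
    have a1 := k6 w hw sw.1 sw.2.1 e1 e2
    have a2 := k5 w hw
    omega
  · have su := sub h t1 t2 (v := u) u1 (by omega)
    have sv := sub h t1 t2 (v := v) (by omega) v2
    constructor
    · intro vz
      by_contra hc
      have hv : v ∈ ball N d t (d t v) := (mb t v _).2 ⟨⟨sv.1, sv.2.1⟩, le_rfl⟩
      obtain ⟨l2, l3, k1, k2, k3, k4, k5, -⟩ := (gd t (d t v) t1 t2).miss h hz (u := u) t1 t2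
        (self t _ t1 t2) hv vt u1 (by omega) (fun c => hc ((mb t u _).1 c).2)
      exact k5 v hv (by omega)
    · intro uz
      by_contra hc
      have hu : u ∈ ball N d t (d t u) := (mb t u _).2 ⟨⟨su.1, su.2.1⟩, le_rfl⟩
      obtain ⟨l2, l3, k1, k2, k3, k4, k5, -⟩ := (gd t (d t u) t1 t2).miss h hz (u := v) t1 t2
        (self t _ t1 t2) hu ut (by omega) v2 (fun c => hc ((mb t v _).1 c).2)
      exact k5 u hu (by omega)

theorem hier (h : Lam 0 N a b) : ∃ (d : ℤ → ℤ → ℕ) (z : ℤ → ℤ), Hier N a b d z := by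
  obtain ⟨d, z, g, -⟩ := hierG h
  exact ⟨d, z, g⟩

end

end Pool.Agent.Lib.TVH
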