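import Mathlib

/-! Surrounded points in a four-ary hierarchy of index blocks. -/

namespace Pool.Agent.Lib.TVH

open Finset

/-- The block of size `4 ^ j` with index `Q` lies inside `[l, u)`. -/
def Ins (l u j Q : ℕ) : Prop := l ≤ 4 ^ j * Q ∧ 4 ^ j * (Q + 1) ≤ u

/-- `p` is surrounded at scale `j`. -/
def Sur (l u : ℕ) (S : Finset ℕ) (j p : ℕ) : Prop :=
  Ins l u (j + 1) (p / 4 ^ (j + 1)) ∧
    (∃ x ∈ S, x / 4 ^ (j + 1) = p / 4 ^ (j + 1) ∧ x / 4 ^ j < p / 4 ^ j) ∧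
    (∃ y ∈ S, y / 4 ^ (j + 1) = p / 4 ^ (j + 1) ∧ p / 4 ^ j < y / 4 ^ j)

lemma div_succ (p j : ℕ) : p / 4 ^ (j + 1) = p / 4 ^ j / 4 := by
  rw [pow_succ, Nat.div_div_eq_div_mul]

lemma Ins.down {l u j Q Q' : ℕ} (h : Ins l u (j + 1) Q) (e : Q' / 4 = Q) : Ins l u j Q' := by
  obtain ⟨h1, h2⟩ := h
  have a1 : 4 * Q ≤ Q' := by omega
  have a2 : Q' + 1 ≤ 4 * (Q + 1) := by omega
  rw [pow_succ, mul_assoc] at h1 h2
  exact ⟨h1.trans (Nat.mul_le_mul_left _ a1), (Nat.mul_le_mul_left _ a2).trans h2⟩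

open Classical in
lemma block_le (l u : ℕ) (S : Finset ℕ) : ∀ j Q, Ins l u j Q →
    (S.filter fun p => p / 4 ^ j = Q ∧ ∀ i < j, ¬ Sur l u S i p).card ≤ 2 ^ j := by
  intro j
  induction j with
  | zero =>
    intro Q _
    refine card_le_one.2 fun a ha b hb => ?_
    simp only [mem_filter, pow_zero, Nat.div_one] at ha hb
    omega
  | succ j ih =>
    intro Q hQ
    set B := S.filter fun p => p / 4 ^ (j + 1) = Q with hB
    rcases B.eq_empty_or_nonempty with he | hne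
    · refine le_trans (card_le_card (t := B) fun p hp => ?_) (by simp [he])
      simp only [mem_filter, hB] at hp ⊢
      exact ⟨hp.1, hp.2.1⟩
    obtain ⟨x, hx, hxm⟩ := exists_min_image B (fun p => p / 4 ^ j) hne
    obtain ⟨y, hy, hym⟩ := exists_max_image B (fun p => p / 4 ^ j) hne
    have hx' := mem_filter.1 hx
    have hy' := mem_filter.1 hy
    have i1 := ih (x / 4 ^ j) (hQ.down (by rw [← div_succ]; exact hx'.2))
    have i2 := ih (y / 4 ^ j) (hQ.down (by rw [← div_succ]; exact hy'.2))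
    refine le_trans (card_le_card ?_) ((card_union_le _ _).trans
      ((add_le_add i1 i2).trans (by rw [pow_succ]; omega)))
    intro p hp
    obtain ⟨hS, hq, hn⟩ := mem_filter.1 hp
    have a1 := hxm p (mem_filter.2 ⟨hS, hq⟩)
    have a2 := hym p (mem_filter.2 ⟨hS, hq⟩)
    simp only [mem_union, mem_filter]
    by_cases e1 : p / 4 ^ j = x / 4 ^ j
    · exact Or.inl ⟨hS, e1, fun i hi => hn i (by omega)⟩
    by_cases e2 : p / 4 ^ j = y / 4 ^ j
    · exact Or.inr ⟨hS, e2, fun i hi => hn i (by omega)⟩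
    exact absurd ⟨hq ▸ hQ, ⟨x, hx'.1, hx'.2.trans hq.symm, by omega⟩,
      ⟨y, hy'.1, hy'.2.trans hq.symm, by omega⟩⟩ (hn j (by omega))

lemma geo_two (J : ℕ) : ∑ j ∈ range J, 2 ^ j + 1 = 2 ^ J := by
  induction J with
  | zero => simp
  | succ J ih => rw [sum_range_succ, pow_succ]; omega

open Classical in
/-- Few points are never surrounded. -/
theorem sur_inf (l u : ℕ) (S : Finset ℕ) (hS : ∀ p ∈ S, l ≤ p ∧ p < u) :
    (S.filter fun p => ∀ j, ¬ Sur l u S j p).card ^ 2 ≤ 256 * (u - l) := by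
  set T := S.filter fun p => ∀ j, ¬ Sur l u S j p with hT
  rcases T.eq_empty_or_nonempty with he | ⟨p0, hp0⟩
  · simp [he]
  have hlu : 1 ≤ u - l := by have := hS p0 (mem_filter.1 hp0).1; omega
  set J := Nat.log 4 (u - l) with hJ
  have hJ1 : 4 ^ J ≤ u - l := Nat.pow_log_le_self 4 (by omega)
  have hJ2 : u - l < 4 ^ (J + 1) := Nat.lt_pow_succ_log_self (by norm_num) _
  let C : ℕ → Finset ℕ := fun j =>
    (Ico (4 * (l / 4 ^ (j + 1))) (4 * (l / 4 ^ (j + 1)) + 4) ∪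
      Ico (4 * (u / 4 ^ (j + 1))) (4 * (u / 4 ^ (j + 1)) + 4)).filter fun Q => Ins l u j Q
  have hC : ∀ j, (C j).card ≤ 8 := fun j =>
    (card_filter_le _ _).trans ((card_union_le _ _).trans (by simp))
  have cover : T ⊆ (range (J + 1)).biUnion fun j => (C j).biUnion fun Q =>
      S.filter fun p => p / 4 ^ j = Q ∧ ∀ i < j, ¬ Sur l u S i p := by
    intro p hp
    obtain ⟨hpS, hn⟩ := mem_filter.1 hp
    obtain ⟨p1, p2⟩ := hS p hpS
    have ex : ∃ j, ¬ Ins l u (j + 1) (p / 4 ^ (j + 1)) := by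
      refine ⟨J, fun h => ?_⟩
      obtain ⟨h1, h2⟩ := h
      rw [mul_add] at h2
      omega
    have hj := Nat.find_spec ex
    have hjJ : Nat.find ex ≤ J := Nat.find_min' ex (fun h => by
      obtain ⟨h1, h2⟩ := h
      rw [mul_add] at h2
      omega)
    have hin : Ins l u (Nat.find ex) (p / 4 ^ Nat.find ex) := by
      rcases Nat.eq_zero_or_pos (Nat.find ex) with e | e
      · rw [e]; simp only [Ins, pow_zero, Nat.div_one, one_mul]; omega
      · obtain ⟨i, hi⟩ : ∃ i, Nat.find ex = i + 1 := ⟨Nat.find ex - 1, by omega⟩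
        have := Nat.find_min ex (show i < Nat.find ex by omega)
        rw [hi]
        exact not_not.1 this
    generalize Nat.find ex = j at hj hjJ hin
    refine mem_biUnion.2 ⟨j, mem_range.2 (by omega), mem_biUnion.2 ⟨p / 4 ^ j,
      mem_filter.2 ⟨?_, hin⟩, mem_filter.2 ⟨hpS, rfl, fun i _ => hn i⟩⟩⟩
    have hpos : 0 < 4 ^ (j + 1) := by positivity
    have d1 : l / 4 ^ (j + 1) ≤ p / 4 ^ (j + 1) := Nat.div_le_div_right p1
    have d2 : p / 4 ^ (j + 1) ≤ u / 4 ^ (j + 1) := Nat.div_le_div_right p2.le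
    have e0 := div_succ p j
    simp only [mem_union, mem_Ico]
    unfold Ins at hj
    by_cases c1 : l ≤ 4 ^ (j + 1) * (p / 4 ^ (j + 1))
    · have c2 : u < 4 ^ (j + 1) * (p / 4 ^ (j + 1) + 1) := by
        by_contra c; exact hj ⟨c1, by omega⟩
      have : u / 4 ^ (j + 1) < p / 4 ^ (j + 1) + 1 := by
        rw [Nat.div_lt_iff_lt_mul hpos, mul_comm]; exact c2
      right; omega
    · have : p / 4 ^ (j + 1) ≤ l / 4 ^ (j + 1) := by
        rw [Nat.le_div_iff_mul_le hpos, mul_comm]; omega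
      left; omega
  have h1 : T.card ≤ ∑ j ∈ range (J + 1), 8 * 2 ^ j := by
    refine (card_le_card cover).trans (card_biUnion_le.trans (sum_le_sum fun j _ => ?_))
    refine card_biUnion_le.trans ?_
    refine (sum_le_card_nsmul _ _ (2 ^ j) fun Q hQ => block_le l u S j Q (mem_filter.1 hQ).2).trans ?_
    rw [smul_eq_mul]
    exact Nat.mul_le_mul_right _ (hC j)
  rw [← mul_sum] at h1
  have h2 := geo_two (J + 1)
  have h3 : T.card ≤ 16 * 2 ^ J := by rw [pow_succ] at h2; omega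
  calc T.card ^ 2 ≤ (16 * 2 ^ J) ^ 2 := Nat.pow_le_pow_left h3 2
    _ = 256 * 4 ^ J := by
      rw [mul_pow, ← pow_mul, mul_comm J 2, pow_mul]; norm_num
    _ ≤ _ := Nat.mul_le_mul_left _ hJ1

lemma geo_half (N : ℕ) : ∀ J, ∑ j ∈ range J, N / 4 ^ j * 2 ^ j ≤ 2 * N := by
  have h : ∀ J, ∑ j ∈ range J, N / 2 ^ j + 2 * (N / 2 ^ J) ≤ 2 * N := by
    intro J
    induction J with
    | zero => simp
    | succ J ih =>
      rw [sum_range_succ, pow_succ, ← Nat.div_div_eq_div_mul]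
      omega
  intro J
  refine le_trans (sum_le_sum fun j _ => ?_) ((Nat.le_add_right _ _).trans (h J))
  rw [Nat.le_div_iff_mul_le (by positivity), mul_assoc, ← mul_pow]
  exact Nat.div_mul_le_self _ _

open Classical in
/-- If few windows have a surrounded point in a given block, few points are surrounded. -/
theorem sur_sum {W : Type*} (Om : Finset W) (l u : W → ℕ) (S : W → Finset ℕ) (N r : ℕ)
    (hu : ∀ w ∈ Om, u w ≤ N)
    (h : ∀ j Q, (Om.filter fun w => ∃ p ∈ S w, p / 4 ^ j = Q ∧ Sur (l w) (u w) (S w) j p).card ≤ r) :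
    ∑ w ∈ Om, ((S w).filter fun p => ∃ j, Sur (l w) (u w) (S w) j p).card ≤ 2 * r * N := by
  let I : Finset (Σ _ : ℕ, ℕ) := (range N).sigma fun j => range (N / 4 ^ j)
  let Y : W → (Σ _ : ℕ, ℕ) → Finset ℕ := fun w a => (S w).filter fun p => p / 4 ^ a.1 = a.2 ∧
    Sur (l w) (u w) (S w) a.1 p ∧ ∀ i < a.1, ¬ Sur (l w) (u w) (S w) i p
  have h1 : ∀ w ∈ Om, ((S w).filter fun p => ∃ j, Sur (l w) (u w) (S w) j p).card ≤
      ∑ a ∈ I, (Y w a).card := by
    intro w hw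
    refine le_trans (card_le_card fun p hp => ?_) card_biUnion_le
    obtain ⟨hp, ex⟩ := mem_filter.1 hp
    have hs := Nat.find_spec ex
    have hm := fun i => Nat.find_min ex (m := i)
    generalize Nat.find ex = j at hs hm
    have hin : Ins (l w) (u w) j (p / 4 ^ j) := hs.1.down (div_succ p j).symm
    have a1 : 4 ^ j * (p / 4 ^ j + 1) ≤ N := hin.2.trans (hu w hw)
    have a2 : j < 4 ^ j := Nat.lt_pow_self (by norm_num)
    have a3 : 4 ^ j * 1 ≤ 4 ^ j * (p / 4 ^ j + 1) := Nat.mul_le_mul_left _ (Nat.le_add_left _ _)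
    refine mem_biUnion.2 ⟨⟨j, p / 4 ^ j⟩, mem_sigma.2 ⟨mem_range.2 (by simp only; omega),
      mem_range.2 ?_⟩, mem_filter.2 ⟨hp, rfl, hs, hm⟩⟩
    show p / 4 ^ j + 1 ≤ N / 4 ^ j
    rw [Nat.le_div_iff_mul_le (by positivity), mul_comm]
    exact a1
  have h2 : ∀ a ∈ I, ∑ w ∈ Om, (Y w a).card ≤ r * 2 ^ a.1 := by
    intro a _
    rw [← sum_filter_of_ne (p := fun w => ∃ p ∈ S w, p / 4 ^ a.1 = a.2 ∧
      Sur (l w) (u w) (S w) a.1 p)]
    · refine (sum_le_card_nsmul _ _ (2 ^ a.1) fun w hw => ?_).trans ?_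
      · obtain ⟨p, -, e, hs⟩ := (mem_filter.1 hw).2
        refine le_trans (card_le_card fun x hx => ?_)
          (block_le (l w) (u w) (S w) a.1 a.2 (e ▸ hs.1.down (div_succ p a.1).symm))
        obtain ⟨x1, x2, -, x4⟩ := mem_filter.1 hx
        exact mem_filter.2 ⟨x1, x2, x4⟩
      · rw [smul_eq_mul]
        exact Nat.mul_le_mul_right _ (h a.1 a.2)
    · intro w _ hne
      obtain ⟨p, hp⟩ := card_pos.1 (Nat.pos_of_ne_zero hne)
      obtain ⟨x1, x2, x3, -⟩ := mem_filter.1 hp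
      exact ⟨p, x1, x2, x3⟩
  calc _ ≤ ∑ w ∈ Om, ∑ a ∈ I, (Y w a).card := sum_le_sum h1
    _ = ∑ a ∈ I, ∑ w ∈ Om, (Y w a).card := sum_comm
    _ ≤ ∑ a ∈ I, r * 2 ^ a.1 := sum_le_sum h2
    _ = r * ∑ j ∈ range N, N / 4 ^ j * 2 ^ j := by
      rw [sum_sigma, mul_sum]
      refine sum_congr rfl fun j _ => ?_
      simp only [sum_const, card_range, smul_eq_mul]
      ring
    _ ≤ r * (2 * N) := Nat.mul_le_mul_left _ (geo_half N N)
    _ = _ := by ring

end Pool.Agent.Lib.TVH
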